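import Pool.Agent.L0h47.NF.Stm2

/-!
# Module C12: from tori to `SL_2(F)`
-/

set_option autoImplicit false

namespace Pool.Agent.L0h47.NF

open Matrix NumberField IsDedekindDomain
open scoped WithZero
open Pool.Agent.L0h47.CG (tvr Ele EV ele_top ev_field mtr mtr_mul mtr_one mtr_inj)

namespace C12m

section
variable {n : ℕ} {F : Type} [Field F] [NumberField F]

/-- the image of a matrix over `F` in the adelic matrices -/
noncomputable def dgl (g : GL (Fin n) F) : AG n F :=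
  ⟨fun v => loc n v g, by
    have h : {v : Pl F | loc n v g ∉ U n v} ⊆
        (⋃ i, ⋃ j, {v : Pl F | ¬ vv v (cst v (g.1 i j)) ≤ 1}) ∪
        (⋃ i, ⋃ j, {v : Pl F | ¬ vv v (cst v ((g⁻¹).1 i j)) ≤ 1}) := by
      intro v hv
      by_contra hcon
      simp only [Set.mem_union, Set.mem_iUnion, not_or, not_exists, Set.mem_ofPred_eq,
        not_not] at hcon
      apply hv
      refine ⟨hcon.1, ?_⟩
      rw [← map_inv]
      exact hcon.2
    exact Set.Finite.subset ((Set.finite_iUnion fun i => Set.finite_iUnion fun j => finite_bad _).union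
      (Set.finite_iUnion fun i => Set.finite_iUnion fun j => finite_bad _)) h⟩

lemma dg_cj (g : GL (Fin n) F) (γ : GQ n F) : dg n (cj g γ) = dgl g * dg n γ * (dgl g)⁻¹ := by
  apply Subtype.ext
  funext v
  show loc n v (g * γ.1 * g⁻¹) = loc n v g * loc n v γ.1 * (loc n v g)⁻¹
  rw [map_mul, map_mul, map_inv]

lemma cj_mul (g : GL (Fin n) F) (γ γ' : GQ n F) : cj g (γ * γ') = cj g γ * cj g γ' := by
  apply Subtype.ext
  show g * (γ.1 * γ'.1) * g⁻¹ = (g * γ.1 * g⁻¹) * (g * γ'.1 * g⁻¹)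
  group

lemma cj_cj (g h : GL (Fin n) F) (γ : GQ n F) : cj (g * h) γ = cj g (cj h γ) := by
  apply Subtype.ext
  show (g * h) * γ.1 * (g * h)⁻¹ = g * (h * γ.1 * h⁻¹) * g⁻¹
  group

lemma cj_one (γ : GQ n F) : cj 1 γ = γ := by
  apply Subtype.ext
  show 1 * γ.1 * 1⁻¹ = γ.1
  group

lemma deep (g : GL (Fin n) F) {N : ℕ} (hN : N ≠ 0) :
    ∃ M : ℕ, M ≠ 0 ∧ ∀ γ : GQ n F, dg n γ ∈ KN n F M → dg n (cj g γ) ∈ KN n F N := by
  obtain ⟨M, hM, h⟩ := exists_conj_KN' (dgl g) hN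
  refine ⟨M, hM, fun γ hγ => ?_⟩
  rw [dg_cj]
  exact h _ hγ

lemma addOn_cj {A : Type} [AddCommGroup A] {N : ℕ} {φ : GQ n F → A} (hφ : AddOn N φ)
    (hN : N ≠ 0) (g : GL (Fin n) F) : ∃ M : ℕ, M ≠ 0 ∧ AddOn M (fun γ => φ (cj g γ)) := by
  obtain ⟨M, hM, h⟩ := deep g hN
  refine ⟨M, hM, fun γ γ' hγ hγ' => ?_⟩
  show φ (cj g (γ * γ')) = φ (cj g γ) + φ (cj g γ')
  rw [cj_mul]
  exact hφ _ _ (h γ hγ) (h γ' hγ')

/-- the matrices which act trivially on the germs of homomorphisms -/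
def Zg (n : ℕ) (F : Type) [Field F] [NumberField F] (A : Type) [AddCommGroup A] :
    Subgroup (GL (Fin n) F) where
  carrier := {g | ∀ (N : ℕ) (φ : GQ n F → A), N ≠ 0 → AddOn N φ → ∃ M : ℕ, M ≠ 0 ∧
    ∀ x : GQ n F, dg n x ∈ KN n F M → φ (cj g x) = φ x}
  one_mem' := by
    intro N φ _ _
    exact ⟨1, one_ne_zero, fun x _ => by rw [cj_one]⟩
  mul_mem' := by
    intro a b ha hb N φ hN hφ
    obtain ⟨M1, hM1, h1⟩ := ha N φ hN hφ
    obtain ⟨M2, hM2, h2⟩ := hb N φ hN hφ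
    obtain ⟨M3, hM3, h3⟩ := deep b hM1
    refine ⟨M2 * M3, mul_ne_zero hM2 hM3, fun x hx => ?_⟩
    rw [cj_cj, h1 _ (h3 x (KN_anti (dvd_mul_left _ _) hx)),
      h2 x (KN_anti (dvd_mul_right _ _) hx)]
  inv_mem' := by
    intro a ha N φ hN hφ
    obtain ⟨M1, hM1, h1⟩ := ha N φ hN hφ
    obtain ⟨M3, hM3, h3⟩ := deep a⁻¹ hM1
    refine ⟨M3, hM3, fun x hx => ?_⟩
    rw [← h1 _ (h3 x hx), ← cj_cj, mul_inv_cancel, cj_one]

lemma Zg_normal {A : Type} [AddCommGroup A] {a : GL (Fin n) F} (ha : a ∈ Zg n F A)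
    (g : GL (Fin n) F) : g * a * g⁻¹ ∈ Zg n F A := by
  intro N φ hN hφ
  obtain ⟨N', hN', hφ'⟩ := addOn_cj hφ hN g
  obtain ⟨M1, hM1, h1⟩ := ha N' _ hN' hφ'
  obtain ⟨M3, hM3, h3⟩ := deep g⁻¹ hM1
  refine ⟨M3, hM3, fun x hx => ?_⟩
  have h4 : φ (cj g (cj a (cj g⁻¹ x))) = φ (cj g (cj g⁻¹ x)) := h1 _ (h3 x hx)
  rw [cj_cj, cj_cj, h4, ← cj_cj, mul_inv_cancel, cj_one]

end

section
variable {F : Type} [Field F] [NumberField F]

lemma h01 : (0 : Fin 2) ≠ 1 := by decide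

lemma h10 : (1 : Fin 2) ≠ 0 := by decide

lemma comm12 (u : (𝓞 F)ˣ) (y : F) :
    SpecialLinearGroup.toGL (tvr 0 1 h01 ((((u : 𝓞 F) : F) - 1) * y)) =
      dU u * (SpecialLinearGroup.toGL (tvr 0 1 h01 y) * (dU u)⁻¹ *
        (SpecialLinearGroup.toGL (tvr 0 1 h01 y))⁻¹) := by
  rw [← mul_assoc, ← mul_assoc, eq_mul_inv_iff_mul_eq, eq_mul_inv_iff_mul_eq]
  apply Units.ext
  show (transvection 0 1 ((((u : 𝓞 F) : F) - 1) * y) * transvection 0 1 y) *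
    !![((u : 𝓞 F) : F), 0; 0, 1] = !![((u : 𝓞 F) : F), 0; 0, 1] * transvection 0 1 y
  ext i j
  fin_cases i <;> fin_cases j <;>
    simp [transvection, Matrix.mul_apply, Fin.sum_univ_two, Matrix.single_apply, Matrix.add_apply] <;>
    ring

lemma comm21 (u : (𝓞 F)ˣ) (y : F) :
    SpecialLinearGroup.toGL (tvr 1 0 h10 (((((u⁻¹ : (𝓞 F)ˣ) : 𝓞 F) : F) - 1) * y)) =
      dU u * (SpecialLinearGroup.toGL (tvr 1 0 h10 y) * (dU u)⁻¹ *
        (SpecialLinearGroup.toGL (tvr 1 0 h10 y))⁻¹) := by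
  have h : ((u : 𝓞 F) : F) * (((u⁻¹ : (𝓞 F)ˣ) : 𝓞 F) : F) = 1 := by
    have := congrArg (algebraMap (𝓞 F) F) (Units.mul_inv u)
    rw [map_mul, map_one] at this
    exact this
  rw [← mul_assoc, ← mul_assoc, eq_mul_inv_iff_mul_eq, eq_mul_inv_iff_mul_eq]
  apply Units.ext
  show (transvection 1 0 (((((u⁻¹ : (𝓞 F)ˣ) : 𝓞 F) : F) - 1) * y) * transvection 1 0 y) *
    !![((u : 𝓞 F) : F), 0; 0, 1] = !![((u : 𝓞 F) : F), 0; 0, 1] * transvection 1 0 y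
  ext i j
  fin_cases i <;> fin_cases j <;>
    simp [transvection, Matrix.mul_apply, Fin.sum_univ_two, Matrix.single_apply, Matrix.add_apply]
  have h0 : algebraMap (𝓞 F) F (u : 𝓞 F) ≠ 0 := left_ne_zero_of_mul (h ▸ one_ne_zero)
  have h' : algebraMap (𝓞 F) F (u : 𝓞 F) * (algebraMap (𝓞 F) F (u : 𝓞 F))⁻¹ = 1 :=
    mul_inv_cancel₀ h0
  linear_combination y * h'

end

end C12m

open C12m in
theorem c12 (h : S_TOR) : S_C12 := by
  intro F _ _ hu A _ w hw hwA N hN φ hφ δ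
  obtain ⟨m, hm, hT⟩ := h F
  obtain ⟨u, hu⟩ := hu
  obtain ⟨t, ht⟩ : ∃ t : (𝓞 F)ˣ, t = u ^ m := ⟨_, rfl⟩
  have ht1 : t ≠ 1 := by rw [ht]; exact hu m hm
  have hmem : dU t ∈ Zg 2 F A := by
    intro N φ hN hφ
    obtain ⟨M, hM, h1⟩ := hT A w hw hwA N hN φ hφ
    refine ⟨M, hM, fun x hx => ?_⟩
    rw [ht]
    exact h1 x hx u
  have htF : ((t : 𝓞 F) : F) - 1 ≠ 0 := by
    intro h0
    apply ht1
    apply Units.ext
    have h1 : ((t : 𝓞 F) : F) = ((1 : 𝓞 F) : F) := by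
      rw [sub_eq_zero] at h0
      rw [h0]
      exact (map_one (algebraMap (𝓞 F) F)).symm
    exact NumberField.RingOfIntegers.ext h1
  have htF' : (((t⁻¹ : (𝓞 F)ˣ) : 𝓞 F) : F) - 1 ≠ 0 := by
    intro h0
    apply ht1
    have h2 : t⁻¹ = 1 := by
      apply Units.ext
      have h1 : (((t⁻¹ : (𝓞 F)ˣ) : 𝓞 F) : F) = ((1 : 𝓞 F) : F) := by
        rw [sub_eq_zero] at h0
        rw [h0]
        exact (map_one (algebraMap (𝓞 F) F)).symm
      exact NumberField.RingOfIntegers.ext h1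
    exact inv_eq_one.mp h2
  have h12 : ∀ x : F, SpecialLinearGroup.toGL (tvr 0 1 h01 x) ∈ Zg 2 F A := by
    intro x
    have e : x = (((t : 𝓞 F) : F) - 1) * (x / (((t : 𝓞 F) : F) - 1)) := by
      field_simp
    rw [e, comm12]
    exact mul_mem hmem (Zg_normal (inv_mem hmem) _)
  have h21 : ∀ x : F, SpecialLinearGroup.toGL (tvr 1 0 h10 x) ∈ Zg 2 F A := by
    intro x
    have e : x = ((((t⁻¹ : (𝓞 F)ˣ) : 𝓞 F) : F) - 1) *
        (x / ((((t⁻¹ : (𝓞 F)ˣ) : 𝓞 F) : F) - 1)) := by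
      field_simp
    rw [e, comm21]
    exact mul_mem hmem (Zg_normal (inv_mem hmem) _)
  have hall : ∀ B : SpecialLinearGroup (Fin 2) F, SpecialLinearGroup.toGL B ∈ Zg 2 F A := by
    intro B
    have hle : Ele 2 F ≤ (Zg 2 F A).comap SpecialLinearGroup.toGL := by
      unfold Ele
      rw [Subgroup.closure_le]
      rintro _ ⟨i, j, hij, x, rfl⟩
      show SpecialLinearGroup.toGL (tvr i j hij x) ∈ Zg 2 F A
      fin_cases i <;> fin_cases j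
      · exact absurd rfl hij
      · exact h12 x
      · exact h21 x
      · exact absurd rfl hij
    exact hle (ele_top (ev_field F) 2 B)
  obtain ⟨M, hM, h1⟩ := hall δ⁻¹ N φ hN hφ
  refine ⟨M, hM, fun γ hγ => ?_⟩
  rw [← h1 γ hγ]
  congr 1
  apply Subtype.ext
  show (SpecialLinearGroup.toGL δ)⁻¹ * γ.1 * SpecialLinearGroup.toGL δ =
    SpecialLinearGroup.toGL δ⁻¹ * γ.1 * (SpecialLinearGroup.toGL δ⁻¹)⁻¹
  rw [map_inv, inv_inv]

end Pool.Agent.L0h47.NF
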