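import Pool.Agent.L0h47.NF.Stm2
import Pool.Agent.N784.AD.Cl

/-!
# DCL: every narrow ray class contains a prime ideal
-/

set_option autoImplicit false
set_option linter.all false

namespace Pool.Agent.L0h47.NF

open NumberField
open Pool.Agent.Y767 (Mq Mq_cop Mq_ne_bot Mq_cancel Cls cls cls_eq cls_pi finite_dual)
open Pool.Agent.Y773.IQ (ofM' ofM'_pos ofM'_supp cop_one)
open Pool.Agent.N784.AD (T1 pi1 pi1_coe T1_one T1_tp exists_rep cls_card_le)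

namespace DCL

variable {K : Type} [Field K] [NumberField K]

/-- orthogonality -/
lemma orth {G : Type} [CommGroup G] [Finite G] [Fintype (G →* ℂˣ)] {g : G} (hg : g ≠ 1) :
    ∑ χ : G →* ℂˣ, ((χ g : ℂˣ) : ℂ) = 0 := by
  have : NeZero (Monoid.exponent G) := ⟨Monoid.exponent_ne_zero_of_finite⟩
  obtain ⟨χ0, h0⟩ := CommGroup.exists_apply_ne_one_of_hasEnoughRootsOfUnity G ℂ hg
  have h1 : ∑ χ : G →* ℂˣ, ((χ g : ℂˣ) : ℂ) =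
      ((χ0 g : ℂˣ) : ℂ) * ∑ χ : G →* ℂˣ, ((χ g : ℂˣ) : ℂ) := by
    rw [Finset.mul_sum, ← Equiv.sum_comp (Equiv.mulLeft χ0)]
    refine Finset.sum_congr rfl fun χ _ => ?_
    rw [Equiv.coe_mulLeft, MonoidHom.mul_apply, Units.val_mul]
  have h2 : ((χ0 g : ℂˣ) : ℂ) ≠ 1 := fun h => h0 (Units.ext h)
  have h3 : (((χ0 g : ℂˣ) : ℂ) - 1) * ∑ χ : G →* ℂˣ, ((χ g : ℂˣ) : ℂ) = 0 := by
    rw [sub_mul, one_mul, ← h1, sub_self]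
  rcases mul_eq_zero.1 h3 with h4 | h4
  · exact absurd (sub_eq_zero.1 h4) h2
  · exact h4

lemma norm_chi {G : Type} [CommGroup G] [Finite G] (χ : G →* ℂˣ) (g : G) :
    ‖((χ g : ℂˣ) : ℂ)‖ = 1 := by
  have h1 : ((χ g : ℂˣ) : ℂ) ^ Nat.card G = 1 := by
    rw [← Units.val_pow_eq_pow_val, ← map_pow, pow_card_eq_one', map_one, Units.val_one]
  exact Complex.norm_eq_one_of_pow_eq_one h1 Nat.card_pos.ne'

/-- the character of the ideals -/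
noncomputable def et {𝔪 : Ideal (𝓞 K)} (htop : 𝔪 ≠ ⊤) (χ : Cls (pi1 htop) →* ℂˣ) :
    Ideal (𝓞 K) →*₀ ℂ := ofM' htop (χ.comp (cls (pi1 htop)))

lemma et_pos {𝔪 : Ideal (𝓞 K)} (htop : 𝔪 ≠ ⊤) (χ : Cls (pi1 htop) →* ℂˣ) {𝔞 : Ideal (𝓞 K)}
    (h : IsCoprime 𝔞 𝔪) : et htop χ 𝔞 = ((χ (cls (pi1 htop) ⟨𝔞, h⟩) : ℂˣ) : ℂ) :=
  ofM'_pos htop _ h

lemma et_neg {𝔪 : Ideal (𝓞 K)} (htop : 𝔪 ≠ ⊤) (χ : Cls (pi1 htop) →* ℂˣ) {𝔞 : Ideal (𝓞 K)}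
    (h : ¬ IsCoprime 𝔞 𝔪) : et htop χ 𝔞 = 0 := by
  by_contra h1
  exact h ((ofM'_supp htop _ 𝔞).1 h1)

lemma et_norm {𝔪 : Ideal (𝓞 K)} (htop : 𝔪 ≠ ⊤) [Finite (Cls (pi1 htop))]
    (χ : Cls (pi1 htop) →* ℂˣ) (𝔞 : Ideal (𝓞 K)) : ‖et htop χ 𝔞‖ ≤ 1 := by
  by_cases h : IsCoprime 𝔞 𝔪
  · rw [et_pos htop χ h, norm_chi]
  · rw [et_neg htop χ h, norm_zero]
    exact zero_le_one

lemma absNorm_ne {𝔭 : Ideal (𝓞 K)} (h : Prime 𝔭) : (0 : ℝ) < ((Ideal.absNorm 𝔭 : ℕ) : ℝ) := by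
  have : Ideal.absNorm 𝔭 ≠ 0 := by
    rw [Ne, Ideal.absNorm_eq_zero_iff]
    exact h.ne_zero
  exact_mod_cast Nat.pos_of_ne_zero this

lemma cpow_eq {𝔭 : Ideal (𝓞 K)} (h : Prime 𝔭) (s : ℝ) :
    ((Ideal.absNorm 𝔭 : ℕ) : ℂ) ^ (-(s : ℂ)) = ((((Ideal.absNorm 𝔭 : ℕ) : ℝ) ^ (-s) : ℝ) : ℂ) := by
  rw [Complex.ofReal_cpow (absNorm_ne h).le]
  push_cast
  rfl

end DCL

open DCL in
theorem dcl (h1 : S_DSM) (h2 : S_DNT) (h3 : S_DTR) : S_DCL := by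
  intro K _ _ 𝔪 𝔞 hbot htop hcop
  classical
  by_contra hcon
  have hC := Mq_cancel htop
  have hfin := (cls_card_le hbot htop).1
  have hfd := finite_dual (Cls (pi1 htop))
  have := Fintype.ofFinite (Cls (pi1 htop) →* ℂˣ)
  set c0 := cls (pi1 htop) ⟨𝔞, hcop⟩ with hc0
  have hno : ∀ (𝔭 : Ideal (𝓞 K)) (hp : IsCoprime 𝔭 𝔪), Prime 𝔭 →
      cls (pi1 htop) ⟨𝔭, hp⟩ ≠ c0 := by
    intro 𝔭 hp hpr h
    obtain ⟨a, b, hab⟩ := cls_eq h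
    apply hcon
    refine ⟨𝔭, (a : 𝓞 K), (b : 𝓞 K), hpr, T1_one a, T1_one b, T1_tp a, T1_tp b, ?_⟩
    have h4 := congrArg Subtype.val hab
    rw [Submonoid.coe_mul, Submonoid.coe_mul, pi1_coe, pi1_coe] at h4
    exact h4
  -- bounded terms
  have hbd : ∀ χ : Cls (pi1 htop) →* ℂˣ, ∃ C δ : ℝ, 0 < δ ∧ (χ ≠ 1 → ∀ s : ℝ, 1 < s → s < 1 + δ →
      ‖PS (et htop χ) s‖ ≤ C) := by
    intro χ
    by_cases hχ : χ = 1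
    · exact ⟨0, 1, one_pos, fun h => absurd hχ h⟩
    · obtain ⟨C, δ, hδ, hb⟩ := h2 K 𝔪 (et htop χ) hbot (fun 𝔟 _ => ofM'_supp htop _ 𝔟)
        (by
          intro x _ hx hp
          rw [et_pos htop χ (cop_one hx)]
          have h4 : cls (pi1 htop) ⟨Ideal.span {x}, cop_one hx⟩ = 1 :=
            cls_pi (pi1 htop) ⟨x, hx, hp⟩
          rw [h4, map_one, Units.val_one])
        (et_norm htop χ) (by
          have h5 : ∃ c, χ c ≠ 1 := by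
            by_contra h6
            push Not at h6
            exact hχ (MonoidHom.ext h6)
          obtain ⟨c, hc⟩ := h5
          obtain ⟨𝔟, rfl⟩ := exists_rep hbot htop c
          refine ⟨𝔟, Mq_ne_bot htop 𝔟, Mq_cop 𝔟, ?_⟩
          rw [et_pos htop χ (Mq_cop 𝔟)]
          intro h6
          exact hc (Units.ext h6))
      exact ⟨C, δ, hδ, fun _ => hb⟩
  choose C δ hδ hb using hbd
  obtain ⟨δ0, hδ0, hδ1⟩ : ∃ δ0 : ℝ, 0 < δ0 ∧ ∀ χ, δ0 ≤ δ χ := by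
    have hne : (Finset.univ : Finset (Cls (pi1 htop) →* ℂˣ)).Nonempty := ⟨1, Finset.mem_univ _⟩
    refine ⟨Finset.univ.inf' hne δ, ?_, fun χ => Finset.inf'_le _ (Finset.mem_univ _)⟩
    rw [Finset.lt_inf'_iff]
    exact fun χ _ => hδ χ
  set B : ℝ := ∑ χ ∈ Finset.univ.erase (1 : Cls (pi1 htop) →* ℂˣ), C χ with hB
  obtain ⟨s, hs1, hs2, hs3⟩ := h3 K 𝔪 hbot (B + 1) δ0 hδ0
  have hsum := h1 K s hs1
  have hsumc : ∀ χ : Cls (pi1 htop) →* ℂˣ,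
      Summable (fun 𝔭 : {𝔭 : Ideal (𝓞 K) // Prime 𝔭} =>
        et htop χ 𝔭.1 * ((Ideal.absNorm 𝔭.1 : ℕ) : ℂ) ^ (-(s : ℂ))) := by
    intro χ
    refine Summable.of_norm_bounded hsum fun 𝔭 => ?_
    rw [norm_mul, cpow_eq 𝔭.2, Complex.norm_real, Real.norm_of_nonneg
      (Real.rpow_nonneg (absNorm_ne 𝔭.2).le _)]
    exact mul_le_of_le_one_left (Real.rpow_nonneg (absNorm_ne 𝔭.2).le _) (et_norm htop χ _)
  have htot : ∑ χ : Cls (pi1 htop) →* ℂˣ, ((χ c0⁻¹ : ℂˣ) : ℂ) * PS (et htop χ) s = 0 := by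
    unfold PS
    simp only [← tsum_mul_left]
    rw [← Summable.tsum_finsetSum (fun χ _ => (hsumc χ).mul_left _)]
    have hz : ∀ 𝔭 : {𝔭 : Ideal (𝓞 K) // Prime 𝔭}, ∑ χ : Cls (pi1 htop) →* ℂˣ,
        ((χ c0⁻¹ : ℂˣ) : ℂ) * (et htop χ 𝔭.1 * ((Ideal.absNorm 𝔭.1 : ℕ) : ℂ) ^ (-(s : ℂ))) = 0 := by
      intro 𝔭
      by_cases hp : IsCoprime 𝔭.1 𝔪
      · have hg : c0⁻¹ * cls (pi1 htop) ⟨𝔭.1, hp⟩ ≠ 1 := by
          intro h4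
          apply hno 𝔭.1 hp 𝔭.2
          exact (inv_mul_eq_one.1 h4).symm
        have h4 := orth hg
        have h5 : ∑ χ : Cls (pi1 htop) →* ℂˣ,
            ((χ c0⁻¹ : ℂˣ) : ℂ) * (et htop χ 𝔭.1 * ((Ideal.absNorm 𝔭.1 : ℕ) : ℂ) ^ (-(s : ℂ))) =
            (∑ χ : Cls (pi1 htop) →* ℂˣ, ((χ (c0⁻¹ * cls (pi1 htop) ⟨𝔭.1, hp⟩) : ℂˣ) : ℂ)) *
              ((Ideal.absNorm 𝔭.1 : ℕ) : ℂ) ^ (-(s : ℂ)) := by
          rw [Finset.sum_mul]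
          refine Finset.sum_congr rfl fun χ _ => ?_
          rw [et_pos htop χ hp, map_mul, Units.val_mul, mul_assoc]
        rw [h5, h4, zero_mul]
      · refine Finset.sum_eq_zero fun χ _ => ?_
        rw [et_neg htop χ hp, zero_mul, mul_zero]
    rw [tsum_congr hz, tsum_zero]
  have hone : PS (et htop 1) s =
      ((∑' 𝔭 : {𝔭 : Ideal (𝓞 K) // Prime 𝔭 ∧ IsCoprime 𝔭 𝔪},
        ((Ideal.absNorm 𝔭.1 : ℕ) : ℝ) ^ (-s) : ℝ) : ℂ) := by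
    rw [Complex.ofReal_tsum]
    unfold PS
    let g : Ideal (𝓞 K) → ℂ := fun 𝔭 => ((((Ideal.absNorm 𝔭 : ℕ) : ℝ) ^ (-s) : ℝ) : ℂ)
    have e1 : ∑' 𝔭 : {𝔭 : Ideal (𝓞 K) // Prime 𝔭},
        et htop 1 𝔭.1 * ((Ideal.absNorm 𝔭.1 : ℕ) : ℂ) ^ (-(s : ℂ)) =
        ∑' 𝔭 : Ideal (𝓞 K), Set.indicator {𝔭 : Ideal (𝓞 K) | Prime 𝔭}
          (fun 𝔭 => if IsCoprime 𝔭 𝔪 then g 𝔭 else 0) 𝔭 := by
      rw [← tsum_subtype]
      refine tsum_congr fun 𝔭 => ?_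
      by_cases hp : IsCoprime 𝔭.1 𝔪
      · rw [if_pos hp, et_pos htop 1 hp, MonoidHom.one_apply, Units.val_one, one_mul]
        exact cpow_eq 𝔭.2 s
      · rw [if_neg hp, et_neg htop 1 hp, zero_mul]
    have e2 : ∑' 𝔭 : {𝔭 : Ideal (𝓞 K) // Prime 𝔭 ∧ IsCoprime 𝔭 𝔪},
        ((((Ideal.absNorm 𝔭.1 : ℕ) : ℝ) ^ (-s) : ℝ) : ℂ) =
        ∑' 𝔭 : Ideal (𝓞 K), Set.indicator {𝔭 : Ideal (𝓞 K) | Prime 𝔭 ∧ IsCoprime 𝔭 𝔪} g 𝔭 :=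
      tsum_subtype {𝔭 : Ideal (𝓞 K) | Prime 𝔭 ∧ IsCoprime 𝔭 𝔪} g
    rw [e1, e2]
    refine tsum_congr fun 𝔭 => ?_
    by_cases h5 : Prime 𝔭
    · by_cases h6 : IsCoprime 𝔭 𝔪
      · rw [Set.indicator_of_mem (show 𝔭 ∈ {𝔭 : Ideal (𝓞 K) | Prime 𝔭} from h5), if_pos h6,
          Set.indicator_of_mem (show 𝔭 ∈ {𝔭 : Ideal (𝓞 K) | Prime 𝔭 ∧ IsCoprime 𝔭 𝔪} from
            ⟨h5, h6⟩)]
      · rw [Set.indicator_of_mem (show 𝔭 ∈ {𝔭 : Ideal (𝓞 K) | Prime 𝔭} from h5), if_neg h6,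
          Set.indicator_of_notMem (show 𝔭 ∉ {𝔭 : Ideal (𝓞 K) | Prime 𝔭 ∧ IsCoprime 𝔭 𝔪} from
            fun h => h6 h.2)]
    · rw [Set.indicator_of_notMem (show 𝔭 ∉ {𝔭 : Ideal (𝓞 K) | Prime 𝔭} from h5),
        Set.indicator_of_notMem (show 𝔭 ∉ {𝔭 : Ideal (𝓞 K) | Prime 𝔭 ∧ IsCoprime 𝔭 𝔪} from
          fun h => h5 h.1)]
  rw [← Finset.add_sum_erase _ _ (Finset.mem_univ (1 : Cls (pi1 htop) →* ℂˣ))] at htot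
  rw [MonoidHom.one_apply, Units.val_one, one_mul, hone] at htot
  have h5 := eq_neg_of_add_eq_zero_left htot
  have h6 := congrArg norm h5
  rw [norm_neg, Complex.norm_real] at h6
  have h7 : ‖∑ χ ∈ Finset.univ.erase (1 : Cls (pi1 htop) →* ℂˣ),
      ((χ c0⁻¹ : ℂˣ) : ℂ) * PS (et htop χ) s‖ ≤ B := by
    refine (norm_sum_le _ _).trans (Finset.sum_le_sum fun χ hχ => ?_)
    rw [norm_mul, norm_chi, one_mul]
    exact hb χ (Finset.ne_of_mem_erase hχ) s hs1 (by linarith [hδ1 χ])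
  rw [← h6] at h7
  have h8 := (le_abs_self _).trans h7
  linarith

end Pool.Agent.L0h47.NF
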