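import Pool.Agent.L0h47.NF.Stm2

/-!
# Project V2 (helper47), module DIR: prime elements in residue classes
-/

set_option autoImplicit false

namespace Pool.Agent.L0h47.NF

open NumberField

namespace Dir

section
variable {R : Type} [CommRing R]

lemma coprime_of_not_le {𝔪 𝔮 : Ideal R} (hq : 𝔮.IsMaximal) (h : ¬ 𝔪 ≤ 𝔮) : IsCoprime 𝔪 𝔮 := by
  rw [Ideal.isCoprime_iff_sup_eq]
  exact hq.out.2 _ (lt_of_le_of_ne le_sup_right fun e => h (by rw [e]; exact le_sup_left))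

lemma coprime_of_max {I J : Ideal R} (h : ∀ 𝔮 : Ideal R, 𝔮.IsMaximal → I ≤ 𝔮 → J ≤ 𝔮 → False) :
    IsCoprime I J := by
  rw [Ideal.isCoprime_iff_sup_eq]
  by_contra hne
  obtain ⟨𝔮, hq, hle⟩ := Ideal.exists_le_maximal _ hne
  exact h 𝔮 hq (le_sup_left.trans hle) (le_sup_right.trans hle)

lemma not_both {I J 𝔮 : Ideal R} (h : IsCoprime I J) (hq : 𝔮.IsMaximal) (hI : I ≤ 𝔮) (hJ : J ≤ 𝔮) :
    False := by
  rw [Ideal.isCoprime_iff_sup_eq] at h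
  exact hq.ne_top (top_le_iff.1 (by rw [← h]; exact sup_le hI hJ))

/-- an element of a residue class prime to `𝔪` that is prime to another ideal `𝔟` -/
lemma exists_coprime [IsDedekindDomain R] {𝔪 𝔟 : Ideal R} (hb : 𝔟 ≠ ⊥) {x : R} (hx : IsCoprime (Ideal.span {x}) 𝔪) :
    ∃ x' : R, x' - x ∈ 𝔪 ∧ IsCoprime (Ideal.span {x'}) (𝔟 * 𝔪) := by
  classical
  set S := (UniqueFactorizationMonoid.normalizedFactors 𝔟).toFinset.filter (fun 𝔮 => ¬ 𝔪 ≤ 𝔮)
    with hS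
  have hmax : ∀ 𝔮 ∈ UniqueFactorizationMonoid.normalizedFactors 𝔟, 𝔮.IsMaximal := by
    intro 𝔮 h
    have h1 := (Ideal.mem_normalizedFactors_iff hb).1 h
    exact h1.1.isMaximal fun h0 => hb (le_bot_iff.1 (by rw [← h0]; exact h1.2))
  have hcop : IsCoprime 𝔪 (∏ 𝔮 ∈ S, 𝔮) := by
    refine IsCoprime.prod_right fun 𝔮 h => ?_
    rw [hS, Finset.mem_filter, Multiset.mem_toFinset] at h
    exact coprime_of_not_le (hmax 𝔮 h.1) h.2
  obtain ⟨a, ha, b, hb', hab⟩ := Ideal.isCoprime_iff_exists.1 hcop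
  refine ⟨x + (1 - x) * a, by rw [add_sub_cancel_left]; exact 𝔪.mul_mem_left _ ha, ?_⟩
  have key : ∀ 𝔮 : Ideal R, 𝔮.IsMaximal → Ideal.span {x + (1 - x) * a} ≤ 𝔮 → ¬ 𝔪 ≤ 𝔮 := by
    intro 𝔮 hq h1 h2
    refine not_both hx hq ?_ h2
    rw [Ideal.span_singleton_le_iff_mem] at h1 ⊢
    have h3 := 𝔮.sub_mem h1 (𝔮.mul_mem_left (1 - x) (h2 ha))
    rwa [add_sub_cancel_right] at h3
  refine IsCoprime.mul_right (coprime_of_max fun 𝔮 hq h1 h2 => ?_)
    (coprime_of_max fun 𝔮 hq h1 h2 => key 𝔮 hq h1 h2)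
  have h3 : 𝔮 ∈ S := by
    rw [hS, Finset.mem_filter, Multiset.mem_toFinset, Ideal.mem_normalizedFactors_iff hb]
    exact ⟨⟨hq.isPrime, h2⟩, key 𝔮 hq h1⟩
  have h4 : (∏ 𝔮 ∈ S, 𝔮) ≤ 𝔮 := Ideal.le_of_dvd (Finset.dvd_prod_of_mem (fun 𝔮 : Ideal R => 𝔮) h3)
  rw [Ideal.span_singleton_le_iff_mem] at h1
  have h5 : x + (1 - x) * a = 1 - (1 - x) * b := by
    have : a = 1 - b := by rw [← hab]; ring
    rw [this]
    ring
  have h6 : (1 : R) ∈ 𝔮 := by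
    have h7 := 𝔮.add_mem h1 (𝔮.mul_mem_left (1 - x) (h4 hb'))
    rwa [h5, sub_add_cancel] at h7
  exact hq.ne_top (𝔮.eq_top_of_isUnit_mem h6 isUnit_one)

end

end Dir

theorem dir (h : S_DCL) : S_DIR := by
  intro K _ _ 𝔪 x hm hx
  have h20 : (2 : 𝓞 K) ≠ 0 := two_ne_zero
  have hb : Ideal.span {(2 : 𝓞 K)} ≠ ⊥ := by
    rw [Ne, Ideal.span_singleton_eq_bot]
    exact h20
  obtain ⟨x', h1, h2⟩ := Dir.exists_coprime hb hx
  set 𝔫 := Ideal.span {(2 : 𝓞 K)} * 𝔪 with hn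
  have hn0 : 𝔫 ≠ ⊥ := mul_ne_zero hb hm
  have hn1 : 𝔫 ≠ ⊤ := by
    intro h3
    have h4 : Ideal.span {(2 : 𝓞 K)} = ⊤ := top_le_iff.1 (by rw [← h3]; exact Ideal.mul_le_left)
    rw [Ideal.span_singleton_eq_top] at h4
    have h5 : (2 : ℤ) ∣ 1 := by
      have h6 : IsIntegral ℤ ((2 : ℚ)⁻¹) := by
        obtain ⟨u, hu⟩ := h4
        have h7 : ((((u⁻¹ : (𝓞 K)ˣ) : 𝓞 K) : K)) = algebraMap ℚ K ((2 : ℚ)⁻¹) := by
          have h8 : (((u : 𝓞 K)) * ((u⁻¹ : (𝓞 K)ˣ) : 𝓞 K)) = 1 := Units.mul_inv u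
          rw [hu] at h8
          have h9 := congrArg (algebraMap (𝓞 K) K) h8
          rw [map_mul, map_one, map_ofNat] at h9
          rw [map_inv₀, map_ofNat]
          exact (eq_inv_of_mul_eq_one_right h9)
        have h10 : IsIntegral ℤ (algebraMap ℚ K ((2 : ℚ)⁻¹)) := by
          rw [← h7]
          exact RingOfIntegers.isIntegral_coe _
        exact (isIntegral_algebraMap_iff (algebraMap ℚ K).injective).1 h10
      obtain ⟨z, hz⟩ := IsIntegrallyClosed.isIntegral_iff.1 h6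
      refine ⟨z, ?_⟩
      have h11 : (algebraMap ℤ ℚ z) * 2 = 1 := by
        rw [hz]
        norm_num
      have h12 : (z : ℚ) * 2 = 1 := h11
      have h13 : z * 2 = 1 := by exact_mod_cast h12
      omega
    omega
  obtain ⟨𝔭, X, Y, hp, hX, hY, -, -, he⟩ := h K 𝔫 (Ideal.span {x'}) hn0 hn1 h2
  have hX0 : X ≠ 0 := by
    rintro rfl
    rw [zero_sub, neg_mem_iff] at hX
    exact hn1 (𝔫.eq_top_of_isUnit_mem hX isUnit_one)
  have h3 : Y * x' ∈ Ideal.span {X} * 𝔭 := by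
    rw [he, Ideal.span_singleton_mul_span_singleton]
    exact Ideal.mem_span_singleton_self _
  obtain ⟨π, hπ, h4⟩ := Ideal.mem_span_singleton_mul.1 h3
  have h5 : 𝔭 = Ideal.span {π} := by
    have h6 : Ideal.span {X} * 𝔭 = Ideal.span {X} * Ideal.span {π} := by
      rw [he, Ideal.span_singleton_mul_span_singleton, Ideal.span_singleton_mul_span_singleton, h4]
    refine mul_left_cancel₀ ?_ h6
    rw [Ne, Ideal.zero_eq_bot, Ideal.span_singleton_eq_bot]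
    exact hX0
  have hπ0 : π ≠ 0 := by
    rintro rfl
    rw [h5] at hp
    exact hp.ne_zero (by rw [Ideal.zero_eq_bot, Ideal.span_singleton_eq_bot])
  refine ⟨π, ?_, ?_⟩
  · rw [← Ideal.span_singleton_prime hπ0, ← h5]
    exact Ideal.isPrime_of_prime hp
  · have h6 : 𝔫 ≤ 𝔪 := Ideal.mul_le_right
    have h7 : π - x = (π - x') + (x' - x) := by ring
    rw [h7]
    refine 𝔪.add_mem ?_ h1
    have h8 : π - x' = (Y - 1) * x' - (X - 1) * π := by
      linear_combination h4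
    rw [h8]
    exact 𝔪.sub_mem (𝔪.mul_mem_right _ (h6 hY)) (𝔪.mul_mem_right _ (h6 hX))

end Pool.Agent.L0h47.NF
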