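import Pool.Agent.L0h47.NF.Stm2
import Pool.Agent.N134.HS.Nvq
import Pool.Agent.Y772.DK.Main

set_option autoImplicit false

/-!
# V2/DNT: the sums over the prime ideals for nontrivial ray class characters
-/

open NumberField Complex Filter Topology Ideal

namespace Pool.Agent.L0h47.NF.DNT

open Pool.Agent.Y773 Pool.Agent.Y772.DK

variable {K : Type} [Field K] [NumberField K]

/-- the prime powers -/
def pw (x : {𝔭 : Ideal (𝓞 K) // Prime 𝔭} × ℕ) : Ideal (𝓞 K) := x.1.1 ^ (x.2 + 1)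

theorem pw_inj : Function.Injective (pw (K := K)) := by
  rintro ⟨⟨P, hP⟩, k⟩ ⟨⟨Q, hQ⟩, l⟩ h
  have h : P ^ (k + 1) = Q ^ (l + 1) := h
  have hPQ : P = Q := by
    have h1 : P ∣ Q := hP.dvd_of_dvd_pow (h ▸ dvd_pow_self P (Nat.succ_ne_zero k))
    have h2 : Q ∣ P := hQ.dvd_of_dvd_pow (h.symm ▸ dvd_pow_self Q (Nat.succ_ne_zero l))
    exact associated_iff_eq.1 (associated_of_dvd_dvd h1 h2)
  subst hPQ
  have h3 := (Ideal.pow_right_strictAnti P hP.ne_zero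
    (Ideal.isPrime_of_prime hP).ne_top).injective h
  have h4 : k = l := by omega
  rw [h4]

theorem two_le {P : Ideal (𝓞 K)} (hP : Prime P) : 2 ≤ absNorm P := by
  have h1 : absNorm P ≠ 0 := (absNorm_pos' hP.ne_zero).ne'
  have h2 : absNorm P ≠ 1 := by
    rw [Ne, absNorm_eq_one_iff]
    exact (Ideal.isPrime_of_prime hP).ne_top
  omega

/-- the sum over the primes is the logarithm up to a bounded error -/
theorem bound (ψ : Ideal (𝓞 K) →*₀ ℂ) (hψ : ∀ 𝔞, ‖ψ 𝔞‖ ≤ 1) (s : ℝ) (hs : 1 < s) :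
    ‖LA (ee ψ) (s : ℂ) - PS ψ s‖ ≤
      ∑' P : {𝔭 : Ideal (𝓞 K) // Prime 𝔭}, nr K 2 P.1 * 2 := by
  have hs' : 1 < ((s : ℝ) : ℂ).re := by rwa [ofReal_re]
  set F : Ideal (𝓞 K) → ℂ := fun 𝔞 => ee ψ 𝔞 * ((absNorm 𝔞 : ℕ) : ℂ) ^ (-(s : ℂ)) with hF
  have hsum : Summable F := (term_summable (ee_zero ψ) (ee_le ψ hψ) hs').of_norm
  have hF' : Summable fun x => F (pw x) := hsum.comp_injective pw_inj
  have h1 : LA (ee ψ) (s : ℂ) = ∑' x, F (pw x) := by
    refine (pw_inj.tsum_eq (f := F) ?_).symm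
    intro 𝔞 h𝔞
    rw [Function.mem_support] at h𝔞
    by_contra hc
    apply h𝔞
    have h2 : ¬ IsPrimePow 𝔞 := by
      rintro ⟨P, k, hP, hk, rfl⟩
      exact hc ⟨(⟨P, hP⟩, k - 1), by
        change P ^ (k - 1 + 1) = P ^ k
        rw [Nat.sub_add_cancel hk]⟩
    change ee ψ 𝔞 * _ = 0
    unfold Pool.Agent.Y772.DK.ee
    rw [VM_of_not h2, zero_div, ofReal_zero, zero_mul, zero_mul]
  have h2 : ∑' x, F (pw x) = ∑' P : {𝔭 : Ideal (𝓞 K) // Prime 𝔭}, ∑' k : ℕ, F (pw (P, k)) :=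
    hF'.tsum_prod
  have h3 : ∀ P : {𝔭 : Ideal (𝓞 K) // Prime 𝔭}, ∑' k : ℕ, F (pw (P, k)) =
      F P.1 + ∑' k : ℕ, F (pw (P, k + 1)) := by
    intro P
    rw [(hF'.prod_factor P).tsum_eq_zero_add]
    congr 2
    change P.1 ^ (0 + 1) = P.1
    rw [zero_add, pow_one]
  have h4 : ∀ P : {𝔭 : Ideal (𝓞 K) // Prime 𝔭},
      F P.1 = ψ P.1 * ((absNorm P.1 : ℕ) : ℂ) ^ (-(s : ℂ)) := by
    intro P
    have h5 : VM P.1 = Real.log (absNorm P.1) := by
      have := VM_pow P.2 (k := 1) one_ne_zero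
      rwa [pow_one] at this
    have h6 : Real.log (absNorm P.1) ≠ 0 := by
      have h7 : (1 : ℝ) < (absNorm P.1 : ℕ) := by exact_mod_cast two_le P.2
      exact (Real.log_pos h7).ne'
    change ee ψ P.1 * _ = _
    unfold Pool.Agent.Y772.DK.ee
    rw [h5, div_self h6, ofReal_one, one_mul]
  have hR : ∀ P : {𝔭 : Ideal (𝓞 K) // Prime 𝔭},
      ‖∑' k : ℕ, F (pw (P, k + 1))‖ ≤ nr K 2 P.1 * 2 := by
    intro P
    refine tsum_of_norm_bounded (hasSum_geometric_two.mul_left (nr K 2 P.1)) fun k => ?_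
    have h5 : ‖F (pw (P, k + 1))‖ ≤ nr K 1 (pw (P, k + 1)) :=
      term_le (σ := 1) (ee_zero ψ) (ee_le ψ hψ) hs'.le _
    refine h5.trans ?_
    have h6 : (2 : ℝ) ≤ (absNorm P.1 : ℕ) := by exact_mod_cast two_le P.2
    have h7 : nr K 1 (pw (P, k + 1)) = (((absNorm P.1 : ℕ) : ℝ) ^ 2)⁻¹ *
        (((absNorm P.1 : ℕ) : ℝ) ^ k)⁻¹ := by
      unfold nr pw
      rw [map_pow, Real.rpow_neg (by positivity), Real.rpow_one, ← mul_inv, Nat.cast_pow]
      congr 1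
      ring
    have h8 : nr K 2 P.1 = (((absNorm P.1 : ℕ) : ℝ) ^ 2)⁻¹ := by
      unfold nr
      rw [Real.rpow_neg (by positivity)]
      norm_num
    rw [h7, h8]
    refine mul_le_mul_of_nonneg_left ?_ (by positivity)
    rw [one_div, inv_pow]
    exact inv_anti₀ (by positivity) (pow_le_pow_left₀ (by norm_num) h6 k)
  have hnr : Summable fun P : {𝔭 : Ideal (𝓞 K) // Prime 𝔭} => nr K 2 P.1 * 2 :=
    ((nr_summable K (σ := 2) (by norm_num)).comp_injective Subtype.val_injective).mul_right 2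
  have hFs : Summable fun P : {𝔭 : Ideal (𝓞 K) // Prime 𝔭} => F P.1 :=
    hsum.comp_injective Subtype.val_injective
  have hRs : Summable fun P : {𝔭 : Ideal (𝓞 K) // Prime 𝔭} => ∑' k : ℕ, F (pw (P, k + 1)) :=
    Summable.of_norm_bounded hnr hR
  have h5 : LA (ee ψ) (s : ℂ) - PS ψ s =
      ∑' P : {𝔭 : Ideal (𝓞 K) // Prime 𝔭}, ∑' k : ℕ, F (pw (P, k + 1)) := by
    rw [h1, h2, tsum_congr h3, hFs.tsum_add hRs, tsum_congr h4]
    unfold PS
    ring
  rw [h5]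
  exact tsum_of_norm_bounded hnr.hasSum hR

end Pool.Agent.L0h47.NF.DNT

namespace Pool.Agent.L0h47.NF

open Pool.Agent.Y773 Pool.Agent.Y772.DK

/-- DNT -/
theorem dnt : S_DNT := by
  intro K _ _ 𝔪 η hne hsupp hray hle hn
  obtain ⟨G, hG, hG1, hGs⟩ := Pool.Agent.N134.HS.ray_ne_zero hne hsupp hray hle hn
  -- a ball on which `G / G 1` is close to `1`
  have hev : ∀ᶠ w in 𝓝 (1 : ℂ), AnalyticAt ℂ G w ∧ ‖G w / G 1 - 1‖ ≤ 1 / 2 := by
    refine hG.eventually_analyticAt.and ?_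
    have h1 : ContinuousAt (fun w => ‖G w / G 1 - 1‖) 1 :=
      ((hG.continuousAt.div_const _).sub continuousAt_const).norm
    have h2 : ‖G 1 / G 1 - 1‖ < 1 / 2 := by
      rw [div_self hG1, sub_self, norm_zero]
      norm_num
    filter_upwards [h1.eventually_lt_const h2] with w hw
    exact hw.le
  obtain ⟨δ, hδ, hball⟩ := Metric.eventually_nhds_iff_ball.1 hev
  set U : Set ℂ := {w | 1 < w.re} ∩ Metric.ball 1 δ with hU
  have hUo : IsOpen U := (isOpen_lt continuous_const continuous_re).inter Metric.isOpen_ball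
  have hUc : IsPreconnected U :=
    ((convex_halfSpace_re_gt 1).inter (convex_ball 1 δ)).isPreconnected
  set L : ℂ → ℂ := fun w => Complex.log (G w / G 1) with hL
  have hslit : ∀ w ∈ U, G w / G 1 ∈ Complex.slitPlane := by
    intro w hw
    have h1 := (hball w hw.2).2
    rw [Complex.mem_slitPlane_iff]
    left
    have h2 := (abs_le.1 ((abs_re_le_norm (G w / G 1 - 1)).trans h1)).1
    rw [sub_re, one_re] at h2
    linarith
  have hne0 : ∀ w ∈ U, G w ≠ 0 := by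
    intro w hw h0
    have h1 := Complex.slitPlane_ne_zero (hslit w hw)
    rw [h0, zero_div] at h1
    exact h1 rfl
  have hLd : ∀ w ∈ U, DifferentiableAt ℂ L w := fun w hw =>
    ((hball w hw.2).1.differentiableAt.div_const _).clog (hslit w hw)
  have hAd : ∀ w ∈ U, DifferentiableAt ℂ (LA (ee η)) w := fun w hw =>
    (LA_diff (ee_zero η) (ee_le η hle) hw.1).1
  set B : ℂ → ℂ := fun w => LA (ee η) w - L w with hB
  have hBd : ∀ w ∈ U, DifferentiableAt ℂ B w := fun w hw => (hAd w hw).sub (hLd w hw)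
  have hexp : ∀ w ∈ U, Complex.exp (B w) = G 1 := by
    intro w hw
    change Complex.exp (LA (ee η) w - Complex.log (G w / G 1)) = G 1
    rw [Complex.exp_sub, ← LI_eq_exp η hle hw.1, ← hGs w hw.1,
      Complex.exp_log (div_ne_zero (hne0 w hw) hG1)]
    field_simp [hne0 w hw]
  have hB0 : ∀ w ∈ U, deriv B w = 0 := by
    intro w hw
    have h1 : HasDerivAt (fun w => Complex.exp (B w)) (Complex.exp (B w) * deriv B w) w :=
      (hBd w hw).hasDerivAt.cexp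
    have h2 : HasDerivAt (fun w => Complex.exp (B w)) 0 w := by
      refine (hasDerivAt_const w (G 1)).congr_of_eventuallyEq ?_
      filter_upwards [hUo.mem_nhds hw] with z hz
      exact hexp z hz
    have h3 := h1.unique h2
    rcases mul_eq_zero.1 h3 with h4 | h4
    · exact absurd h4 (Complex.exp_ne_zero _)
    · exact h4
  have hconst : ∀ w ∈ U, ∀ z ∈ U, B w = B z := fun w hw z hz =>
    hUo.is_const_of_deriv_eq_zero hUc (fun x hx => (hBd x hx).differentiableWithinAt)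
      (fun x hx => hB0 x hx) hw hz
  have hmem : ∀ s : ℝ, 1 < s → s < 1 + δ → (s : ℂ) ∈ U := by
    intro s h1 h2
    refine ⟨by change 1 < ((s : ℝ) : ℂ).re; rwa [ofReal_re], ?_⟩
    rw [Metric.mem_ball, dist_eq_norm]
    have : ((s : ℝ) : ℂ) - 1 = ((s - 1 : ℝ) : ℂ) := by push_cast; ring
    rw [this, Complex.norm_real, Real.norm_of_nonneg (by linarith)]
    linarith
  refine ⟨‖B ((1 + δ / 2 : ℝ) : ℂ)‖ + 1 +
    ∑' P : {𝔭 : Ideal (𝓞 K) // Prime 𝔭}, nr K 2 P.1 * 2, δ, hδ, fun s hs1 hs2 => ?_⟩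
  have hsU := hmem s hs1 hs2
  have h1 := DNT.bound η hle s hs1
  have h2 : B (s : ℂ) = B ((1 + δ / 2 : ℝ) : ℂ) :=
    hconst _ hsU _ (hmem _ (by linarith) (by linarith))
  have h3 : ‖L (s : ℂ)‖ ≤ 1 := by
    have h4 := (hball _ hsU.2).2
    have h5 := norm_log_one_add_half_le_self h4
    rw [add_sub_cancel] at h5
    change ‖Complex.log (G (s : ℂ) / G 1)‖ ≤ 1
    linarith
  have h4 : LA (ee η) (s : ℂ) = B ((1 + δ / 2 : ℝ) : ℂ) + L (s : ℂ) := by
    rw [← h2]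
    change LA (ee η) (s : ℂ) = LA (ee η) (s : ℂ) - L (s : ℂ) + L (s : ℂ)
    ring
  calc ‖PS η s‖ = ‖(B ((1 + δ / 2 : ℝ) : ℂ) + L (s : ℂ)) - (LA (ee η) (s : ℂ) - PS η s)‖ := by
        rw [← h4]
        congr 1
        ring
    _ ≤ ‖B ((1 + δ / 2 : ℝ) : ℂ) + L (s : ℂ)‖ + ‖LA (ee η) (s : ℂ) - PS η s‖ := norm_sub_le _ _
    _ ≤ _ := add_le_add ((norm_add_le _ _).trans (add_le_add le_rfl h3)) h1

end Pool.Agent.L0h47.NF
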