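import Pool.Agent.L0h47.NF.Stm2
import Pool.Agent.H484R2.Zeta

/-!
# DSM: the sum over the prime ideals of the powers of the norms converges
-/

set_option autoImplicit false

namespace Pool.Agent.L0h47.NF

open NumberField

theorem dsm : S_DSM := by
  intro K _ _ s hs
  have h := (Pool.Agent.H484R2.hasSum_ideals K (s := (s : ℂ)) (by simpa using hs)).summable.norm
  have h2 : Summable fun I : {I : Ideal (𝓞 K) // I ≠ ⊥} => ((Ideal.absNorm I.1 : ℕ) : ℝ) ^ (-s) := by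
    refine h.congr fun I => ?_
    have hI : Ideal.absNorm I.1 ≠ 0 := by rw [Ne, Ideal.absNorm_eq_zero_iff]; exact I.2
    rw [Complex.norm_natCast_cpow_of_pos (Nat.pos_of_ne_zero hI)]
    simp
  exact h2.comp_injective
    (i := fun 𝔭 : {𝔭 : Ideal (𝓞 K) // Prime 𝔭} => (⟨𝔭.1, 𝔭.2.ne_zero⟩ : {I : Ideal (𝓞 K) // I ≠ ⊥}))
    (fun J J' h => Subtype.ext (congrArg (fun I : {I : Ideal (𝓞 K) // I ≠ ⊥} => I.1) h))

end Pool.Agent.L0h47.NF
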