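import Pool.Agent.L0h47.NF.Stm2
import Pool.Agent.Helper932.IdealCount
import Pool.Agent.H691R3.PrimeSum

/-!
# V2, module DTR: the sum over the prime ideals prime to a given ideal is unbounded near `1`
-/

set_option autoImplicit false

namespace Pool.Agent.L0h47.NF

open NumberField IsDedekindDomain Filter Topology

namespace DTR

variable {K : Type} [Field K] [NumberField K]

/-- prime ideals as points of the spectrum -/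
def toH (𝔭 : {𝔭 : Ideal (𝓞 K) // Prime 𝔭}) : HeightOneSpectrum (𝓞 K) :=
  ⟨𝔭.1, Ideal.isPrime_of_prime 𝔭.2, 𝔭.2.ne_zero⟩

theorem toH_inj : Function.Injective (toH (K := K)) := by
  intro 𝔭 𝔮 h
  exact Subtype.ext (congrArg HeightOneSpectrum.asIdeal h)

theorem dvd_of_not_coprime (𝔪 : Ideal (𝓞 K)) (𝔭 : {𝔭 : Ideal (𝓞 K) // Prime 𝔭}) (h : ¬ IsCoprime 𝔭.1 𝔪) :
    𝔭.1 ∣ 𝔪 := by
  by_contra hn
  apply h
  rw [Ideal.dvd_iff_le] at hn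
  have hmax : 𝔭.1.IsMaximal := (toH 𝔭).isMaximal
  rw [Ideal.isCoprime_iff_sup_eq]
  by_contra hne
  have := hmax.eq_of_le hne le_sup_left
  exact hn (this ▸ le_sup_right)

theorem bad_finite (𝔪 : Ideal (𝓞 K)) (h𝔪 : 𝔪 ≠ ⊥) :
    {𝔭 : {𝔭 : Ideal (𝓞 K) // Prime 𝔭} | ¬ IsCoprime 𝔭.1 𝔪}.Finite := by
  have h1 : {v : HeightOneSpectrum (𝓞 K) | v.asIdeal ∣ 𝔪}.Finite := Ideal.finite_factors h𝔪
  refine (h1.preimage (toH_inj.injOn)).subset ?_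
  intro 𝔭 h𝔭
  exact dvd_of_not_coprime 𝔪 𝔭 h𝔭

theorem not_summable (𝔪 : Ideal (𝓞 K)) (h𝔪 : 𝔪 ≠ ⊥) :
    ¬ Summable (fun 𝔭 : {𝔭 : Ideal (𝓞 K) // Prime 𝔭 ∧ IsCoprime 𝔭 𝔪} => (1 : ℝ) / (Ideal.absNorm 𝔭.1 : ℕ)) := by
  intro h
  apply Pool.Agent.Helper932.not_summable_prime_ideals (K := K)
  rw [← (bad_finite 𝔪 h𝔪).summable_compl_iff]
  have hinj : Function.Injective (fun 𝔭 : ({𝔭 : {𝔭 : Ideal (𝓞 K) // Prime 𝔭} | ¬ IsCoprime 𝔭.1 𝔪}ᶜ : Set _) =>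
      (⟨𝔭.1.1, 𝔭.1.2, not_not.1 𝔭.2⟩ : {𝔭 : Ideal (𝓞 K) // Prime 𝔭 ∧ IsCoprime 𝔭 𝔪})) := by
    intro 𝔭 𝔮 h
    exact Subtype.ext (Subtype.ext (congrArg (fun x => x.1) h))
  have h2 := h.comp_injective hinj
  refine h2.congr fun 𝔭 => ?_
  simp only [Function.comp_apply]

theorem summable (𝔪 : Ideal (𝓞 K)) {s : ℝ} (hs : 1 < s) :
    Summable (fun 𝔭 : {𝔭 : Ideal (𝓞 K) // Prime 𝔭 ∧ IsCoprime 𝔭 𝔪} => ((Ideal.absNorm 𝔭.1 : ℕ) : ℝ) ^ (-s)) := by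
  have h := Pool.Agent.H691R3.nm_summable (K := K) hs
  have hinj : Function.Injective (fun 𝔭 : {𝔭 : Ideal (𝓞 K) // Prime 𝔭 ∧ IsCoprime 𝔭 𝔪} =>
      toH (⟨𝔭.1, 𝔭.2.1⟩ : {𝔭 : Ideal (𝓞 K) // Prime 𝔭})) := by
    intro 𝔭 𝔮 h
    have := toH_inj h
    exact Subtype.ext (congrArg (fun x => x.1) this)
  have h2 := h.comp_injective hinj
  refine h2.congr fun 𝔭 => ?_
  simp only [Function.comp_apply, Pool.Agent.H691R3.nm, toH]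

end DTR

/-- Module DTR -/
theorem dtr : S_DTR := by
  intro K _ _ 𝔪 h𝔪 B δ hδ
  obtain ⟨Fs, hF⟩ : ∃ Fs : Finset {𝔭 : Ideal (𝓞 K) // Prime 𝔭 ∧ IsCoprime 𝔭 𝔪},
      B < ∑ 𝔭 ∈ Fs, (1 : ℝ) / (Ideal.absNorm 𝔭.1 : ℕ) := by
    by_contra hcon
    push Not at hcon
    exact DTR.not_summable 𝔪 h𝔪 (summable_of_sum_le (fun _ => by positivity) hcon)
  have hcont : Continuous (fun s : ℝ => ∑ 𝔭 ∈ Fs, ((Ideal.absNorm 𝔭.1 : ℕ) : ℝ) ^ (-s)) := by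
    refine continuous_finsetSum _ fun 𝔭 _ => ?_
    have h0 : ((Ideal.absNorm 𝔭.1 : ℕ) : ℝ) ≠ 0 := by
      rw [Nat.cast_ne_zero, Ne, Ideal.absNorm_eq_zero_iff]
      exact 𝔭.2.1.ne_zero
    exact continuous_const.rpow continuous_neg (fun _ => Or.inl h0)
  have h1 : B < (fun s : ℝ => ∑ 𝔭 ∈ Fs, ((Ideal.absNorm 𝔭.1 : ℕ) : ℝ) ^ (-s)) 1 := by
    refine hF.trans_le (le_of_eq ?_)
    refine Finset.sum_congr rfl fun 𝔭 _ => ?_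
    rw [Real.rpow_neg_one, one_div]
  have h2 := hcont.continuousAt.eventually (Ioi_mem_nhds h1)
  obtain ⟨η, hη, h3⟩ := Metric.eventually_nhds_iff.1 h2
  set s : ℝ := 1 + min η δ / 2 with hs
  have hmin : 0 < min η δ := lt_min hη hδ
  have hs1 : 1 < s := by rw [hs]; linarith
  have hd : dist s 1 < η := by
    rw [Real.dist_eq, hs, add_sub_cancel_left, abs_of_pos (by linarith)]
    linarith [min_le_left η δ]
  refine ⟨s, hs1, ?_, ?_⟩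
  · rw [hs]; linarith [min_le_right η δ]
  · have h4 := h3 hd
    have h5 := (DTR.summable (K := K) 𝔪 hs1).sum_le_tsum Fs (fun _ _ => by positivity)
    exact (le_of_lt h4).trans h5

end Pool.Agent.L0h47.NF
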