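import Pool.Agent.L0h47.NF.Stm2
import Pool.Agent.L0h47.NF.M.GAL
import Pool.Agent.L0h47.NF.M.RTH

/-!
# The final result for `GL_2`
-/

set_option autoImplicit false

namespace Pool.Agent.L0h47.NF

open Matrix NumberField IsDedekindDomain

namespace FI2m

/-- a unit of infinite order -/
lemma exists_unit (F : Type) [Field F] [NumberField F] (h : 2 ≤ Fintype.card (InfinitePlace F)) :
    ∃ u : (𝓞 F)ˣ, ∀ k : ℕ, k ≠ 0 → u ^ k ≠ 1 := by
  have hr : 0 < NumberField.Units.rank F := by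
    unfold NumberField.Units.rank
    omega
  refine ⟨NumberField.Units.fundSystem F ⟨0, hr⟩, ?_⟩
  intro k hk h1
  have h2 : NumberField.Units.fundSystem F ⟨0, hr⟩ ∈ NumberField.Units.torsion F := by
    unfold NumberField.Units.torsion
    rw [CommGroup.mem_torsion, isOfFinOrder_iff_pow_eq_one]
    exact ⟨k, Nat.pos_of_ne_zero hk, h1⟩
  have h3 := (NumberField.Units.dirichletUnitTheorem.logEmbedding_eq_zero_iff (K := F)).2 h2
  rw [NumberField.Units.logEmbedding_fundSystem] at h3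
  exact (NumberField.Units.basisUnitLattice F).ne_zero ⟨0, hr⟩ (Subtype.ext h3)

end FI2m

theorem fi2 (h1 : S_EI2) (h2 : S_C12) (h3 : S_HS2) : S_FI2 := by
  intro F _ _ hF Sg L p O _ W _ _ C hp k _ _ _ _ θ e t he E _ _ _ _ ρ hatt hirr i hi
  have hS : HSTAt 2 F := h3 2 F (h2 F (FI2m.exists_unit F hF))
  by_contra hlt
  rw [not_le] at hlt
  obtain ⟨Γ, _, _, π, χ, hsurj, hfrob⟩ := gal F E p hp Sg
  have hee : e * e = 1 := by rcases he with h | h <;> rw [h] <;> norm_num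
  refine rth 2 le_rfl p hp k Γ Gal(E/F) π χ ρ hsurj ?_ hirr
  intro g hg
  obtain ⟨v, hv, hdvd, P, hP, hPv, hPf⟩ := hfrob (g ^ e) (by rw [map_zpow, hg, _root_.one_zpow])
  obtain ⟨c, hc⟩ := h1 2 F Sg L p O W C hS (by norm_num) hp k θ t i hlt hi ⟨v, hv⟩ hdvd
  refine ⟨c, ?_⟩
  rw [← hc, ← hatt.frob ⟨v, hv⟩ P hP hPv (π (g ^ e)) hPf]
  congr 3
  rw [map_zpow, ← _root_.zpow_mul, hee, zpow_one]

end Pool.Agent.L0h47.NF
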