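import Pool.Agent.L0h47.NF.Stm2

/-!
# V2, module NRM: norms modulo a natural number
-/

set_option autoImplicit false

namespace Pool.Agent.L0h47.NF

open Matrix NumberField IsDedekindDomain

namespace NRM

variable {F : Type} [Field F] [NumberField F]

theorem norm_cast (c : ℤ) (q : ℕ) (y : 𝓞 F) :
    ((Algebra.norm ℤ ((c : 𝓞 F) + (q : 𝓞 F) * y) : ℤ) : ZMod q) = (c : ZMod q) ^ Module.finrank ℚ F := by
  classical
  have hb := Algebra.norm_eq_matrix_det (Module.Free.chooseBasis ℤ (𝓞 F)) ((c : 𝓞 F) + (q : 𝓞 F) * y)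
  rw [hb]
  have h1 := RingHom.map_det (Int.castRingHom (ZMod q))
    (Algebra.leftMulMatrix (Module.Free.chooseBasis ℤ (𝓞 F)) ((c : 𝓞 F) + (q : 𝓞 F) * y))
  rw [eq_intCast] at h1
  rw [h1]
  have h2 : (Int.castRingHom (ZMod q)).mapMatrix
      (Algebra.leftMulMatrix (Module.Free.chooseBasis ℤ (𝓞 F)) ((c : 𝓞 F) + (q : 𝓞 F) * y)) =
      (c : ZMod q) • (1 : Matrix _ _ (ZMod q)) := by
    rw [map_add, map_mul, map_intCast, map_natCast, map_add, map_mul, map_intCast, map_natCast]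
    have h3 : ((q : ℕ) : Matrix (Module.Free.ChooseBasisIndex ℤ (𝓞 F)) (Module.Free.ChooseBasisIndex ℤ (𝓞 F)) (ZMod q)) = 0 := by
      rw [← nsmul_one, ← Nat.cast_smul_eq_nsmul (ZMod q), ZMod.natCast_self, zero_smul]
    rw [h3, zero_mul, add_zero, ← zsmul_one, ← Int.cast_smul_eq_zsmul (ZMod q)]
  rw [h2, Matrix.det_smul, Matrix.det_one, mul_one, ← NumberField.RingOfIntegers.rank,
    Module.finrank_eq_card_chooseBasisIndex]

end NRM

/-- Module NRM -/
theorem nrm : S_NRM := by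
  intro F _ _ π c q _ h1 h2
  obtain ⟨y, hy⟩ := h1
  have hπ : π = (c : 𝓞 F) + (q : 𝓞 F) * y := by rw [← hy]; ring
  have h3 := NRM.norm_cast (F := F) c q y
  rw [← hπ] at h3
  rw [Ideal.absNorm_span_singleton] at h2
  set N : ℤ := Algebra.norm ℤ π with hN
  have h4 : (q : ℤ) ∣ N ^ 2 - 1 := by
    have h5 : N ^ 2 - 1 = ((N.natAbs : ℤ) - 1) * ((N.natAbs : ℤ) + 1) := by
      have := Int.natAbs_mul_self (a := N)
      have h6 : ((N.natAbs : ℤ)) * (N.natAbs : ℤ) = N * N := by exact_mod_cast this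
      linear_combination -h6
    rw [h5]
    exact h2.mul_right _
  rw [← ZMod.intCast_zmod_eq_zero_iff_dvd] at h4 ⊢
  push_cast at h4 ⊢
  rw [h3] at h4
  rw [mul_comm 2, pow_mul]
  exact h4

end Pool.Agent.L0h47.NF
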