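import Pool.Agent.L0h47.NF.Stm2
import Pool.Agent.L0h47.NF.M.PRF

/-!
# Homomorphisms from `SL_n(O_v)` to groups killed by a unit
-/

set_option autoImplicit false

namespace Pool.Agent.L0h47.NF

open Matrix NumberField IsDedekindDomain
open scoped WithZero
open Pool.Agent.L0h47.CG (tvr Ele EV ele_top mtr mtr_mul mtr_one mtr_inj Movable movable_clear
  tvr_apply tvr_mem)

namespace PR2m

lemma tvr_add {n : ℕ} {R : Type*} [CommRing R] (i j : Fin n) (h : i ≠ j) (a b : R) :
    tvr i j h a * tvr i j h b = tvr i j h (a + b) := by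
  apply Subtype.ext
  exact transvection_mul_transvection_same i j h a b

lemma tvr_pow {n : ℕ} {R : Type*} [CommRing R] (i j : Fin n) (h : i ≠ j) (a : R) (w : ℕ) :
    tvr i j h a ^ w = tvr i j h (w * a) := by
  induction w with
  | zero =>
    rw [pow_zero, Nat.cast_zero, zero_mul]
    apply Subtype.ext
    exact (transvection_zero i j).symm
  | succ w ih =>
    rw [pow_succ, ih, tvr_add, Nat.cast_succ, add_mul, one_mul]

end PR2m

open PRFm PR2m in
theorem pr2 : S_PR2 := by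
  intro n F _ _ v A _ w hw hwA ψ hψ u hu hdet
  -- the homomorphism
  have h1 : ψ 1 = 0 := by
    have := hψ 1 (one_mem _) 1 (one_mem _) (by simp) (by simp)
    rw [one_mul] at this
    exact left_eq_add.mp this
  obtain ⟨Ψ, hΨ⟩ : ∃ Ψ : SpecialLinearGroup (Fin n) (Ov v) →* Multiplicative A,
      ∀ B, Ψ B = Multiplicative.ofAdd (ψ (em n v B)) :=
    ⟨{ toFun := fun B => Multiplicative.ofAdd (ψ (em n v B))
       map_one' := by rw [map_one, h1]; rfl
       map_mul' := fun a b => by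
        rw [map_mul, hψ _ (em_mem a) _ (em_mem b) (em_det a) (em_det b)]
        rfl }, fun _ => rfl⟩
  obtain ⟨s, hs⟩ : ∃ s : Ov v, ((w : ℕ) : Ov v) * s = 1 := by
    have h0 : ((w : ℕ) : Kv v) ≠ 0 := by
      intro h
      rw [h, map_zero] at hw
      exact zero_ne_one hw
    refine ⟨⟨((w : ℕ) : Kv v)⁻¹, ?_⟩, ?_⟩
    · show vv v ((w : ℕ) : Kv v)⁻¹ ≤ 1
      rw [map_inv₀, hw, inv_one]
    · apply Subtype.ext
      show (((w : ℕ) : Ov v) : Kv v) * ((w : ℕ) : Kv v)⁻¹ = 1
      have e : (((w : ℕ) : Ov v) : Kv v) = ((w : ℕ) : Kv v) := by norm_cast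
      rw [e]
      exact mul_inv_cancel₀ h0
  have h2 : ∀ (i j : Fin n) (h : i ≠ j) (t : Ov v), Ψ (tvr i j h t) = 1 := by
    intro i j hij t
    have e : t = ((w : ℕ) : Ov v) * (s * t) := by rw [← mul_assoc, hs, one_mul]
    rw [e, ← tvr_pow, map_pow]
    have h3 : ∀ x : Multiplicative A, x ^ w = 1 := fun x => hwA x.toAdd
    exact h3 _
  have h3 : ∀ B, Ψ B = 1 := by
    intro B
    have h4 : Ele n (Ov v) ≤ Ψ.ker := by
      unfold Ele
      rw [Subgroup.closure_le]
      rintro _ ⟨i, j, h, t, rfl⟩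
      exact h2 i j h t
    exact h4 (ele_top (ev_local (Ov v)) n B)
  obtain ⟨B, rfl⟩ := em_surj hu hdet
  have h5 := h3 B
  rw [hΨ] at h5
  exact h5

end Pool.Agent.L0h47.NF
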