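import Pool.Agent.L0h47.NF.Stm2

/-!
# ROW: unimodular rows and the orders of the units
-/

set_option autoImplicit false

namespace Pool.Agent.L0h47.NF

open Matrix NumberField IsDedekindDomain

namespace ROW

variable {F : Type} [Field F] [NumberField F]

/-- Fermat's theorem for prime elements -/
lemma fermat {π : 𝓞 F} (hπ : Prime π) (u : (𝓞 F)ˣ) :
    π ∣ ((u ^ (Ideal.absNorm (Ideal.span {π}) - 1) : (𝓞 F)ˣ) : 𝓞 F) - 1 := by
  have hne : Ideal.span {π} ≠ ⊥ := by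
    rw [Ne, Ideal.span_singleton_eq_bot]
    exact hπ.ne_zero
  have hp : (Ideal.span {π}).IsPrime := (Ideal.span_singleton_prime hπ.ne_zero).2 hπ
  have hm : (Ideal.span {π}).IsMaximal := hp.isMaximal hne
  let _ := Ideal.Quotient.field (Ideal.span {π})
  have : Finite (𝓞 F ⧸ Ideal.span {π}) := Ideal.finiteQuotientOfFreeOfNeBot _ hne
  let _ := Fintype.ofFinite (𝓞 F ⧸ Ideal.span {π})
  have hcard : Fintype.card (𝓞 F ⧸ Ideal.span {π}) = Ideal.absNorm (Ideal.span {π}) := by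
    rw [Ideal.absNorm_apply, Submodule.cardQuot_apply, Nat.card_eq_fintype_card]
  have h1 : Ideal.Quotient.mk (Ideal.span {π}) (u : 𝓞 F) ≠ 0 :=
    (u.isUnit.map (Ideal.Quotient.mk (Ideal.span {π}))).ne_zero
  have h2 := FiniteField.pow_card_sub_one_eq_one _ h1
  rw [hcard] at h2
  rw [← Ideal.mem_span_singleton, ← Ideal.Quotient.eq_zero_iff_mem, map_sub, map_one,
    Units.val_pow_eq_pow_val, map_pow, h2, sub_self]

lemma two_le_norm {π : 𝓞 F} (hπ : Prime π) : 2 ≤ Ideal.absNorm (Ideal.span {π}) := by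
  have h0 : Ideal.absNorm (Ideal.span {π}) ≠ 0 := by
    rw [Ne, Ideal.absNorm_eq_zero_iff, Ideal.span_singleton_eq_bot]
    exact hπ.ne_zero
  have h1 : Ideal.absNorm (Ideal.span {π}) ≠ 1 := by
    rw [Ne, Ideal.absNorm_eq_one_iff, Ideal.span_singleton_eq_top]
    exact hπ.not_isUnit
  omega

/-- the exponent -/
def ex (d l : ℕ) : ℕ := if l ≤ 2 * d + 1 then 4 * d else 1

/-- integers whose power is not one -/
lemma exists_c {d l : ℕ} (hd : 1 ≤ d) (hl : l.Prime) :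
    ∃ c : ℕ, c.Coprime l ∧ ¬ ((l : ℤ) ^ ex d l) ∣ (c : ℤ) ^ (2 * d) - 1 := by
  unfold ex
  split_ifs with h
  · refine ⟨1 + l, ?_, ?_⟩
    · simp
    · intro hdvd
      have hl2 : 2 ≤ l := hl.two_le
      have h1 : (1 + l) ^ (2 * d) ≤ (l ^ 2) ^ (2 * d) :=
        Nat.pow_le_pow_left (by nlinarith) _
      have h2 : (l ^ 2) ^ (2 * d) = l ^ (4 * d) := by
        rw [← pow_mul]
        congr 1
        ring
      have h3 : 1 < (1 + l) ^ (2 * d) := Nat.one_lt_pow (by omega) (by omega)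
      have h4 : ((l ^ (4 * d) : ℕ) : ℤ) ∣ (((1 + l) ^ (2 * d) - 1 : ℕ) : ℤ) := by
        rw [Nat.cast_sub h3.le]
        push_cast
        push_cast at hdvd
        exact hdvd
      have h5 : l ^ (4 * d) ∣ (1 + l) ^ (2 * d) - 1 := by exact_mod_cast h4
      have h6 := Nat.le_of_dvd (by omega) h5
      omega
  · haveI : Fact l.Prime := ⟨hl⟩
    obtain ⟨g, hg⟩ := IsCyclic.exists_generator (α := (ZMod l)ˣ)
    have ho : orderOf g = l - 1 := by
      rw [orderOf_eq_card_of_forall_mem_zpowers hg, Nat.card_eq_fintype_card, ZMod.card_units]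
    refine ⟨(g : ZMod l).val, ZMod.val_coe_unit_coprime g, ?_⟩
    intro hdvd
    rw [pow_one, ← ZMod.intCast_zmod_eq_zero_iff_dvd] at hdvd
    push_cast at hdvd
    rw [ZMod.natCast_zmod_val, sub_eq_zero] at hdvd
    have h1 : g ^ (2 * d) = 1 := by
      apply Units.ext
      rw [Units.val_pow_eq_pow_val, hdvd, Units.val_one]
    have h2 := orderOf_dvd_of_pow_eq_one h1
    rw [ho] at h2
    have h3 := Nat.le_of_dvd (by omega) h2
    omega

/-- the Chinese remainder theorem for elements -/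
lemma crt {R : Type} [CommRing R] {u v : R} (h : IsCoprime u v) (a c : R) :
    ∃ x, u ∣ x - a ∧ v ∣ x - c := by
  obtain ⟨p, q, hpq⟩ := h
  refine ⟨a * (q * v) + c * (p * u), ⟨(c - a) * p, ?_⟩, ⟨(a - c) * q, ?_⟩⟩
  · linear_combination a * hpq
  · linear_combination c * hpq

/-- coprimality depends on the residue class -/
lemma cop_of_dvd {R : Type} [CommRing R] {x y u : R} (h : IsCoprime x u) (hd : u ∣ y - x) :
    IsCoprime y u := by
  obtain ⟨k, hk⟩ := hd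
  have : y = x + u * k := by rw [← hk]; ring
  rw [this]
  exact IsCoprime.add_mul_left_left h k

/-- prime elements in residue classes -/
lemma dir (h1 : S_DIR) {x y : 𝓞 F} (hy : y ≠ 0) (h : IsCoprime x y) :
    ∃ π : 𝓞 F, Prime π ∧ y ∣ π - x := by
  obtain ⟨π, hπ, hm⟩ := h1 F (Ideal.span {y}) x (by rw [Ne, Ideal.span_singleton_eq_bot]; exact hy)
    ((Ideal.isCoprime_span_singleton_iff x y).2 h)
  exact ⟨π, hπ, Ideal.mem_span_singleton.1 hm⟩

/-- a translate of `b` prime to `l` -/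
lemma exists_s {l M : ℕ} (hl : l.Prime) (hM : ¬ l ∣ M) {a b : 𝓞 F} (hab : IsCoprime a b) :
    ∃ s : 𝓞 F, IsCoprime (b + a * (M : 𝓞 F) * s) (l : 𝓞 F) := by
  classical
  have hl0 : ((l : ℕ) : 𝓞 F) ≠ 0 := by exact_mod_cast hl.ne_zero
  have hI : Ideal.span {((l : ℕ) : 𝓞 F)} ≠ ⊥ := by
    rw [Ne, Ideal.span_singleton_eq_bot]
    exact hl0
  set T : Finset (Ideal (𝓞 F)) :=
    (UniqueFactorizationMonoid.normalizedFactors (Ideal.span {((l : ℕ) : 𝓞 F)})).toFinset with hT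
  have hTp : ∀ P ∈ T, Prime P := by
    intro P hP
    exact UniqueFactorizationMonoid.prime_of_normalized_factor P (Multiset.mem_toFinset.1 hP)
  have hTmem : ∀ P : Ideal (𝓞 F), P.IsPrime → ((l : ℕ) : 𝓞 F) ∈ P → P ∈ T := by
    intro P hP hlP
    have hle : Ideal.span {((l : ℕ) : 𝓞 F)} ≤ P := by
      rw [Ideal.span_singleton_le_iff_mem]
      exact hlP
    have hP0 : P ≠ ⊥ := fun h => hl0 (by rw [h] at hlP; exact hlP)
    have hpp : Prime P := Ideal.prime_of_isPrime hP0 hP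
    rw [hT, Multiset.mem_toFinset]
    obtain ⟨Q, hQ, hPQ⟩ := UniqueFactorizationMonoid.exists_mem_normalizedFactors_of_dvd hI
      hpp.irreducible (Ideal.dvd_iff_le.2 hle)
    rwa [associated_iff_eq.1 hPQ]
  obtain ⟨s, hs⟩ := IsDedekindDomain.exists_forall_sub_mem_ideal (s := T) (fun P => P)
    (fun _ => 1) hTp (fun i _ j _ h => h) (fun P => if b ∈ P.1 then 1 else 0)
  refine ⟨s, ?_⟩
  rw [← Ideal.isCoprime_span_singleton_iff, Ideal.isCoprime_iff_sup_eq]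
  by_contra hne
  obtain ⟨P, hPm, hP⟩ := Ideal.exists_le_maximal _ hne
  have hPp := hPm.isPrime
  have hlP : ((l : ℕ) : 𝓞 F) ∈ P :=
    hP (Ideal.mem_sup_right (Ideal.mem_span_singleton_self _))
  have hbP : b + a * (M : 𝓞 F) * s ∈ P :=
    hP (Ideal.mem_sup_left (Ideal.mem_span_singleton_self _))
  have hPT := hTmem P hPp hlP
  have h1 := hs P hPT
  simp only [pow_one] at h1
  have h1P : (1 : 𝓞 F) ∉ P := (Ideal.ne_top_iff_one P).1 hPp.ne_top
  by_cases hb : b ∈ P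
  · rw [if_pos hb] at h1
    have hsP : s ∉ P := fun h => h1P (by
      have := P.sub_mem h h1
      rwa [sub_sub_cancel] at this)
    have haP : a ∉ P := fun h => by
      obtain ⟨p, q, hpq⟩ := hab
      apply h1P
      rw [← hpq]
      exact P.add_mem (P.mul_mem_left _ h) (P.mul_mem_left _ hb)
    have hMP : ((M : ℕ) : 𝓞 F) ∉ P := fun h => by
      have hc : IsCoprime ((l : ℕ) : ℤ) ((M : ℕ) : ℤ) :=
        Nat.isCoprime_iff_coprime.2 ((Nat.Prime.coprime_iff_not_dvd hl).2 hM)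
      have hc' := hc.map (Int.castRingHom (𝓞 F))
      obtain ⟨p, q, hpq⟩ := hc'
      apply h1P
      rw [← hpq]
      refine P.add_mem (P.mul_mem_left _ ?_) (P.mul_mem_left _ ?_)
      · simpa using hlP
      · simpa using h
    have h2 : a * (M : 𝓞 F) * s ∈ P := by
      have := P.sub_mem hbP hb
      rwa [add_sub_cancel_left] at this
    rcases hPp.mem_or_mem h2 with h3 | h3
    · rcases hPp.mem_or_mem h3 with h4 | h4
      · exact haP h4
      · exact hMP h4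
    · exact hsP h3
  · rw [if_neg hb, sub_zero] at h1
    apply hb
    have := P.sub_mem hbP (P.mul_mem_left (a * (M : 𝓞 F)) h1)
    rwa [add_sub_cancel_right] at this

/-- valuations of products -/
lemma val_mul {l e x y j : ℕ} (hl : l.Prime) (hx : ¬ l ^ e ∣ x) (hy : ¬ l ^ e ∣ y)
    (h : l ^ j ∣ x * y) : j + 2 ≤ 2 * e := by
  obtain ⟨k₁, k₂, h1, h2, h3⟩ := (Nat.dvd_mul).1 h
  obtain ⟨i₁, -, hi₁⟩ := (Nat.dvd_prime_pow hl).1 (Dvd.intro _ h3)
  obtain ⟨i₂, -, hi₂⟩ := (Nat.dvd_prime_pow hl).1 (Dvd.intro_left _ h3)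
  rw [hi₁, hi₂, ← pow_add] at h3
  have h4 : i₁ + i₂ = j := Nat.pow_right_injective hl.two_le h3
  have h5 : i₁ < e := by
    by_contra h6
    push Not at h6
    exact hx ((pow_dvd_pow l h6).trans (hi₁ ▸ h1))
  have h7 : i₂ < e := by
    by_contra h6
    push Not at h6
    exact hy ((pow_dvd_pow l h6).trans (hi₂ ▸ h2))
  omega

/-- norms of prime elements in good classes -/
lemma norm_ok (h2 : S_NRM) {q : ℕ} {c : ℤ} {π : 𝓞 F} (hπ : Prime π)
    (hq : ((q : ℕ) : 𝓞 F) ∣ π - (c : 𝓞 F))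
    (hc : ¬ (q : ℤ) ∣ c ^ (2 * Module.finrank ℚ F) - 1) :
    ¬ q ∣ Ideal.absNorm (Ideal.span {π}) - 1 := by
  intro h
  apply hc
  apply h2 F π c q hπ hq
  have h3 : ((q : ℕ) : ℤ) ∣ ((Ideal.absNorm (Ideal.span {π}) - 1 : ℕ) : ℤ) := by exact_mod_cast h
  rwa [Nat.cast_sub (by have := two_le_norm hπ; omega), Nat.cast_one] at h3

end ROW

open ROW in
theorem row (h1 : S_DIR) (h2 : S_NRM) : S_ROW := by
  intro F _ _
  set d := Module.finrank ℚ F with hd
  have hd1 : 1 ≤ d := Module.finrank_pos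
  refine ⟨((2 * d + 1).factorial) ^ (4 * d), ((2 * d + 1).factorial) ^ (8 * d),
    pow_ne_zero _ (Nat.factorial_ne_zero _), pow_ne_zero _ (Nat.factorial_ne_zero _), ?_⟩
  intro M hM0 hKM l hl a b hab haM hbM
  obtain ⟨c₀, hc₀, hc₀'⟩ := exists_c hd1 hl
  have hsmall : l ≤ 2 * d + 1 → l ^ (4 * d) ∣ M := fun h =>
    (pow_dvd_pow_of_dvd (Nat.dvd_factorial hl.pos h) _).trans hKM
  have hMF : ((M : ℕ) : 𝓞 F) ≠ 0 := by exact_mod_cast hM0
  have haM1 : IsCoprime a ((M : ℕ) : 𝓞 F) := by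
    refine cop_of_dvd (x := 1) isCoprime_one_left ?_
    exact (dvd_pow_self _ two_ne_zero).trans haM
  by_cases hlM : l ∣ M
  · -- two primes
    have hle : l ^ ex d l ∣ M := by
      unfold ex
      split_ifs with h
      · exact hsmall h
      · rw [pow_one]
        exact hlM
    have he1 : 1 ≤ ex d l := by
      unfold ex
      split_ifs <;> omega
    obtain ⟨s, hs⟩ : ∃ s : 𝓞 F, b + a * (M : 𝓞 F) * s ≠ 0 := by
      by_cases hb : b = 0
      · refine ⟨1, ?_⟩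
        rw [hb, zero_add, mul_one]
        refine mul_ne_zero ?_ hMF
        rintro rfl
        rw [hb] at hab
        exact not_isCoprime_zero_zero hab
      · exact ⟨0, by rwa [mul_zero, add_zero]⟩
    set b' := b + a * (M : 𝓞 F) * s with hb'
    have hab' : IsCoprime a b' := by
      rw [hb', mul_assoc]
      exact IsCoprime.add_mul_left_right hab _
    have haMb : IsCoprime a ((M : 𝓞 F) * b') := haM1.mul_right hab'
    obtain ⟨L, hL⟩ : ∃ L : ℕ, L = M * Ideal.absNorm (Ideal.span {b'}) := ⟨_, rfl⟩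
    have hL0 : L ≠ 0 := by
      rw [hL]
      refine mul_ne_zero hM0 ?_
      rw [Ne, Ideal.absNorm_eq_zero_iff, Ideal.span_singleton_eq_bot]
      exact hs
    have hLF : ((L : ℕ) : 𝓞 F) ≠ 0 := by exact_mod_cast hL0
    have hML : M ∣ L := ⟨_, hL⟩
    have hMbL : (M : 𝓞 F) * b' ∣ (L : 𝓞 F) := by
      rw [hL, Nat.cast_mul]
      exact mul_dvd_mul_left _ (Ideal.mem_span_singleton.1 (Ideal.absNorm_mem _))
    -- the integer `c`
    obtain ⟨k, L', hL', hLk⟩ := Nat.exists_eq_pow_mul_and_not_dvd hL0 l hl.ne_one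
    have hcop : Nat.Coprime (l ^ ex d l) L' :=
      Nat.Coprime.pow_left _ ((Nat.Prime.coprime_iff_not_dvd hl).2 hL')
    obtain ⟨c, hc1, hc2⟩ := Nat.chineseRemainder hcop c₀ 1
    have hcl : Nat.Coprime c l := by
      have h3 : c ≡ c₀ [MOD l] := hc1.of_dvd (dvd_pow_self l (by omega))
      have h4 : Nat.gcd c l = Nat.gcd c₀ l := h3.gcd_eq
      rw [Nat.Coprime, h4]
      exact hc₀
    have hcL' : Nat.Coprime c L' := by
      have h4 : Nat.gcd c L' = Nat.gcd 1 L' := hc2.gcd_eq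
      rw [Nat.Coprime, h4, Nat.gcd_one_left]
    have hcL : Nat.Coprime c L := by
      rw [hLk]
      exact Nat.Coprime.mul_right (Nat.Coprime.pow_right _ hcl) hcL'
    have hcLZ : IsCoprime ((c : ℕ) : ℤ) ((L : ℕ) : ℤ) := Nat.isCoprime_iff_coprime.2 hcL
    obtain ⟨c', w, hcw⟩ := hcLZ
    -- `l ^ e` does not divide the powers
    have hcdvd : ((l ^ ex d l : ℕ) : ℤ) ∣ (c : ℤ) - (c₀ : ℤ) := by
      exact (Nat.modEq_iff_dvd.1 hc1.symm)
    have hcn : ¬ ((l ^ ex d l : ℕ) : ℤ) ∣ (c : ℤ) ^ (2 * d) - 1 := by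
      intro h3
      apply hc₀'
      have h4 : ((l ^ ex d l : ℕ) : ℤ) ∣ (c : ℤ) ^ (2 * d) - (c₀ : ℤ) ^ (2 * d) :=
        hcdvd.trans (sub_dvd_pow_sub_pow _ _ _)
      have h5 := dvd_sub h3 h4
      push_cast at h5
      have h6 : (c : ℤ) ^ (2 * d) - 1 - ((c : ℤ) ^ (2 * d) - (c₀ : ℤ) ^ (2 * d)) =
          (c₀ : ℤ) ^ (2 * d) - 1 := by ring
      rwa [h6] at h5
    have hleL : ((l ^ ex d l : ℕ) : ℤ) ∣ (L : ℤ) := by exact_mod_cast hle.trans hML
    have hcn' : ¬ ((l ^ ex d l : ℕ) : ℤ) ∣ c' ^ (2 * d) - 1 := by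
      intro h3
      apply hcn
      have h4 : ((l ^ ex d l : ℕ) : ℤ) ∣ (c' * c) ^ (2 * d) - 1 := by
        have h5 : ((l ^ ex d l : ℕ) : ℤ) ∣ c' * c - 1 := by
          have h6 : c' * c - 1 = (-w) * L := by linear_combination hcw
          rw [h6]
          exact hleL.mul_left _
        have h7 := h5.trans (sub_dvd_pow_sub_pow (c' * c) 1 (2 * d))
        rwa [one_pow] at h7
      have h8 : (c : ℤ) ^ (2 * d) - 1 = ((c' * c) ^ (2 * d) - 1) -
          (c : ℤ) ^ (2 * d) * (c' ^ (2 * d) - 1) := by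
        rw [mul_pow]
        ring
      rw [h8]
      exact dvd_sub h4 (h3.mul_left _)
    have hcF : IsCoprime ((c : ℕ) : 𝓞 F) ((L : ℕ) : 𝓞 F) := by
      refine ⟨(c' : 𝓞 F), (w : 𝓞 F), ?_⟩
      exact_mod_cast congrArg (Int.cast : ℤ → 𝓞 F) hcw
    have hcF' : IsCoprime (c' : 𝓞 F) ((L : ℕ) : 𝓞 F) := by
      refine ⟨((c : ℕ) : 𝓞 F), (w : 𝓞 F), ?_⟩
      have h3 : (c : ℤ) * c' + w * L = 1 := by rw [← hcw]; ring
      exact_mod_cast congrArg (Int.cast : ℤ → 𝓞 F) h3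
    obtain ⟨π₁, hπ₁, hd₁⟩ := dir h1 hLF hcF
    have hπ₁L : IsCoprime π₁ ((L : ℕ) : 𝓞 F) := cop_of_dvd hcF hd₁
    have hπ₁M : IsCoprime ((M : 𝓞 F) * b') π₁ :=
      (hπ₁L.of_isCoprime_of_dvd_right hMbL).symm
    obtain ⟨x, hx1, hx2⟩ := crt hπ₁M ((c' : 𝓞 F) * a) 1
    have hMb0 : (M : 𝓞 F) * b' ≠ 0 := mul_ne_zero hMF hs
    have hxc1 : IsCoprime x ((M : 𝓞 F) * b') :=
      cop_of_dvd (IsCoprime.mul_left (hcF'.of_isCoprime_of_dvd_right hMbL) haMb) hx1
    have hxc2 : IsCoprime x π₁ := cop_of_dvd isCoprime_one_left hx2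
    obtain ⟨π₂, hπ₂, hd₂⟩ := dir h1 (mul_ne_zero hMb0 hπ₁.ne_zero) (hxc1.mul_right hxc2)
    have hp2a : (M : 𝓞 F) * b' ∣ π₂ - (c' : 𝓞 F) * a := by
      have h3 : π₂ - (c' : 𝓞 F) * a = (π₂ - x) + (x - (c' : 𝓞 F) * a) := by ring
      rw [h3]
      exact dvd_add ((Dvd.intro _ rfl).trans hd₂) hx1
    have hp21 : π₁ ∣ π₂ - 1 := by
      have h3 : π₂ - 1 = (π₂ - x) + (x - 1) := by ring
      rw [h3]
      exact dvd_add ((Dvd.intro_left _ rfl).trans hd₂) hx2
    have hprod : (M : 𝓞 F) * b' ∣ π₁ * π₂ - a := by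
      have h3 : π₁ * π₂ - a = π₂ * (π₁ - ((c : ℕ) : 𝓞 F)) +
          ((c : ℕ) : 𝓞 F) * (π₂ - (c' : 𝓞 F) * a) + ((c' : 𝓞 F) * ((c : ℕ) : 𝓞 F) - 1) * a := by
        ring
      have h4 : (c' : 𝓞 F) * ((c : ℕ) : 𝓞 F) - 1 = (-(w : 𝓞 F)) * ((L : ℕ) : 𝓞 F) := by
        have h5 : (c' : 𝓞 F) * ((c : ℕ) : 𝓞 F) + (w : 𝓞 F) * ((L : ℕ) : 𝓞 F) = 1 := by
          exact_mod_cast congrArg (Int.cast : ℤ → 𝓞 F) hcw
        linear_combination h5
      rw [h3, h4]
      exact dvd_add (dvd_add ((hMbL.trans hd₁).mul_left _) (hp2a.mul_left _))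
        ((hMbL.mul_left _).mul_right _)
    obtain ⟨t, ht⟩ := hprod
    have hn1 := norm_ok h2 (q := l ^ ex d l) (c := (c : ℤ)) hπ₁ (by
      have h3 : ((l ^ ex d l : ℕ) : 𝓞 F) ∣ ((L : ℕ) : 𝓞 F) := Nat.cast_dvd_cast (hle.trans hML)
      simpa using h3.trans hd₁) (by rw [← hd]; exact hcn)
    have hn2 := norm_ok h2 (q := l ^ ex d l) (c := c') hπ₂ (by
      have h3 : ((l ^ ex d l : ℕ) : 𝓞 F) ∣ ((M : ℕ) : 𝓞 F) := Nat.cast_dvd_cast hle
      have h4 : π₂ - (c' : 𝓞 F) = (π₂ - (c' : 𝓞 F) * a) + (c' : 𝓞 F) * (a - 1) := by ring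
      rw [h4]
      exact dvd_add (h3.trans ((Dvd.intro _ rfl).trans hp2a))
        ((h3.trans ((dvd_pow_self _ two_ne_zero).trans haM)).mul_left _)) (by
          rw [← hd]; exact hcn')
    have hN1 := two_le_norm hπ₁
    have hN2 := two_le_norm hπ₂
    refine ⟨s, t, (Ideal.absNorm (Ideal.span {π₁}) - 1) * (Ideal.absNorm (Ideal.span {π₂}) - 1),
      mul_ne_zero (by omega) (by omega), ?_, ?_⟩
    · intro j hj
      have h3 := val_mul hl hn1 hn2 hj
      unfold ex at h3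
      split_ifs at h3 with h4
      · exact (pow_dvd_pow l (by omega : j ≤ 8 * d)).trans
          (pow_dvd_pow_of_dvd (Nat.dvd_factorial hl.pos h4) _)
      · have : j = 0 := by omega
        rw [this, pow_zero]
        exact one_dvd _
    · intro u
      have h3 : a + b' * ((M : ℕ) : 𝓞 F) * t = π₁ * π₂ := by linear_combination -ht
      rw [h3]
      refine IsCoprime.mul_dvd ?_ ?_ ?_
      · exact (cop_of_dvd (x := 1) isCoprime_one_left hp21).symm
      · have h4 := fermat hπ₁ u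
        rw [pow_mul, Units.val_pow_eq_pow_val]
        refine h4.trans ?_
        have h5 := sub_dvd_pow_sub_pow
          ((u ^ (Ideal.absNorm (Ideal.span {π₁}) - 1) : (𝓞 F)ˣ) : 𝓞 F) 1
          (Ideal.absNorm (Ideal.span {π₂}) - 1)
        rwa [one_pow] at h5
      · have h4 := fermat hπ₂ u
        rw [mul_comm (Ideal.absNorm (Ideal.span {π₁}) - 1), pow_mul, Units.val_pow_eq_pow_val]
        refine h4.trans ?_
        have h5 := sub_dvd_pow_sub_pow
          ((u ^ (Ideal.absNorm (Ideal.span {π₂}) - 1) : (𝓞 F)ˣ) : 𝓞 F) 1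
          (Ideal.absNorm (Ideal.span {π₁}) - 1)
        rwa [one_pow] at h5
  · -- one prime
    have hlarge : ¬ l ≤ 2 * d + 1 := fun h =>
      hlM ((dvd_pow_self l (by omega)).trans (hsmall h))
    have hex : ex d l = 1 := if_neg hlarge
    rw [hex, pow_one] at hc₀'
    obtain ⟨s, hs⟩ := exists_s hl hlM hab
    set b' := b + a * (M : 𝓞 F) * s with hb'
    have hlF : ((l : ℕ) : 𝓞 F) ≠ 0 := by exact_mod_cast hl.ne_zero
    have hlu : ¬ IsUnit ((l : ℕ) : 𝓞 F) := by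
      intro h
      have h3 := Ideal.absNorm_eq_one_iff.2 (Ideal.span_singleton_eq_top.2 h)
      rw [Ideal.absNorm_span_natCast] at h3
      have h4 : l ∣ 1 := by
        rw [← h3]
        exact dvd_pow_self l (Nat.ne_of_gt (by
          rw [NumberField.RingOfIntegers.rank]
          exact Module.finrank_pos))
      exact hl.one_lt.ne' (Nat.dvd_one.1 h4)
    have hb0 : b' ≠ 0 := by
      intro h
      rw [h, isCoprime_zero_left] at hs
      exact hlu hs
    have hab' : IsCoprime a b' := by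
      rw [hb', mul_assoc]
      exact IsCoprime.add_mul_left_right hab _
    have haMb : IsCoprime a ((M : 𝓞 F) * b') := haM1.mul_right hab'
    have hMl : IsCoprime ((M : ℕ) : 𝓞 F) ((l : ℕ) : 𝓞 F) := by
      have hc : IsCoprime ((M : ℕ) : ℤ) ((l : ℕ) : ℤ) :=
        Nat.isCoprime_iff_coprime.2 ((Nat.Prime.coprime_iff_not_dvd hl).2 hlM).symm
      simpa using hc.map (Int.castRingHom (𝓞 F))
    have hMbl : IsCoprime ((M : 𝓞 F) * b') ((l : ℕ) : 𝓞 F) := hMl.mul_left hs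
    obtain ⟨x, hx1, hx2⟩ := crt hMbl a ((c₀ : ℕ) : 𝓞 F)
    have hcl : IsCoprime ((c₀ : ℕ) : 𝓞 F) ((l : ℕ) : 𝓞 F) := by
      have hc : IsCoprime ((c₀ : ℕ) : ℤ) ((l : ℕ) : ℤ) := Nat.isCoprime_iff_coprime.2 hc₀
      simpa using hc.map (Int.castRingHom (𝓞 F))
    obtain ⟨π, hπ, hdπ⟩ := dir h1 (mul_ne_zero (mul_ne_zero hMF hb0) hlF)
      ((cop_of_dvd haMb hx1).mul_right (cop_of_dvd hcl hx2))
    have hpa : (M : 𝓞 F) * b' ∣ π - a := by
      have h3 : π - a = (π - x) + (x - a) := by ring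
      rw [h3]
      exact dvd_add ((Dvd.intro _ rfl).trans hdπ) hx1
    have hpc : ((l : ℕ) : 𝓞 F) ∣ π - ((c₀ : ℕ) : 𝓞 F) := by
      have h3 : π - ((c₀ : ℕ) : 𝓞 F) = (π - x) + (x - ((c₀ : ℕ) : 𝓞 F)) := by ring
      rw [h3]
      exact dvd_add ((Dvd.intro_left _ rfl).trans hdπ) hx2
    obtain ⟨t, ht⟩ := hpa
    have hn := norm_ok h2 (q := l) (c := (c₀ : ℤ)) hπ (by simpa using hpc)
      (by rw [← hd]; exact hc₀')
    have hN := two_le_norm hπ
    refine ⟨s, t, Ideal.absNorm (Ideal.span {π}) - 1, by omega, ?_, ?_⟩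
    · intro j hj
      by_cases hj0 : j = 0
      · rw [hj0, pow_zero]
        exact one_dvd _
      · exact absurd ((dvd_pow_self l hj0).trans hj) hn
    · intro u
      have h3 : a + b' * ((M : ℕ) : 𝓞 F) * t = π := by linear_combination -ht
      rw [h3]
      exact fermat hπ u

end Pool.Agent.L0h47.NF
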