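import Pool.Agent.L0h47.NF.Stm2
import Pool.Agent.L0h47.NF.M.TJ0
import Pool.Agent.L0h47.NF.M.TJZ
import Pool.Agent.L0h47.NF.M.TJK
import Pool.Agent.L0h47.NF.M.IDT
import Pool.Agent.L0h47.NF.M.RPC
import Pool.Agent.L0h47.NF.M.SA
import Pool.Agent.L0h47.NF.M.APX

/-!
# Module TJ2: the Hecke operators `T_j` at the places prime to `p`
-/

set_option autoImplicit false

namespace Pool.Agent.L0h47.NF

open Matrix NumberField IsDedekindDomain
open scoped WithZero

namespace TJ2m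

open TJm

theorem tj0b (h1 : S_IDT) (h2 : S_RPC) : ∀ (n : ℕ) (F : Type) [Field F] [NumberField F]
    (Sg : Finset (Pl F)) (L : Level n Sg) (p : ℕ) (O : Type) [CommRing O] (W : Type)
    [AddCommGroup W] [Module O W] (C : Coef L p O W) (v : {v : Pl F // v ∉ Sg}) (j : ℕ), 1 ≤ n →
    p ≠ 0 → j ≤ n → ∀ f : C.Fn, (∀ γ g, f.1 (dg n γ * g) = f.1 g) →
    ∀ g, (opF C (FreeAlgebra.ι O ⟨v, td n v.1 j⟩) f).1 g =
      (deg n v.1 j : ℤ) • f.1 (g * sft n v.1 ^ j) := by
  intro n F _ _ Sg L p O _ W _ _ C v j hn _ hj f hf g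
  classical
  rw [opF_iota]
  show hecke v.1 (td n v.1 j) f.1 g = _
  unfold hecke
  have key : ∀ c : HC n v.1 (td n v.1 j), f.1 (g * inc n v.1 c.1.out) =
      f.1 (g * sft n v.1 ^ j) := by
    intro c
    obtain ⟨y, hy, hy2⟩ := h2 n F v.1 j (by omega) hj c
    have e1 : ((c.1.out : LG n v.1) : LG n v.1 ⧸ U n v.1) = (y : LG n v.1 ⧸ U n v.1) := by
      rw [QuotientGroup.out_eq', hy]
    rw [(Fn_RU C v.2 f).coset g e1]
    exact h1 n F W f.1 hf (Fn_LC C f) _ _ (sameDet_inc v.1 j g (by omega) hy2)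
  rw [finsum_congr key]
  have : Fintype (HC n v.1 (td n v.1 j)) := Fintype.ofFinite _
  rw [finsum_eq_sum_of_fintype, Finset.sum_const, Finset.card_univ, natCast_zsmul]
  congr 1
  unfold deg
  rw [Nat.card_eq_fintype_card]


theorem tjzb (h2 : S_RPC) : ∀ (n : ℕ) (F : Type) [Field F] [NumberField F]
    (Sg : Finset (Pl F)) (L : Level n Sg) (p : ℕ) (O : Type) [CommRing O] (W : Type)
    [AddCommGroup W] [Module O W] (C : Coef L p O W) (v : {v : Pl F // v ∉ Sg}) (j : ℕ), HSTAt n F → 1 ≤ n →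
    p ≠ 0 → j ≤ n →
    ∀ c : GQ n F → C.Fn, IsCoc (fun γ => (c γ).1) →
      ∃ f : AG n F → W, LC f ∧ ∀ γ x, (opF C (FreeAlgebra.ι O ⟨v, td n v.1 j⟩) (c γ)).1 x -
        (deg n v.1 j : ℤ) • (c γ).1 (x * sft n v.1 ^ j) = dF f γ x := by
  intro n F _ _ Sg L p O _ W _ _ C v j h1 hn hp hj c hc
  classical
  obtain ⟨r, hr⟩ := C.tors
  obtain ⟨N1, hN1, hle⟩ := L.isOpen
  obtain ⟨N2, hN2, hsm⟩ := C.smooth
  have hinv : ∀ γ x, ∀ κ ∈ KN n F (N1 * N2), (c γ).1 (x * κ) = (c γ).1 x := by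
    intro γ x κ hκ
    have hκ1 : κ ∈ L.Kf := hle (KN_anti (dvd_mul_right _ _) hκ)
    have h := (c γ).2 x ⟨κ, hκ1⟩
    have h3 : C.act (⟨κ, hκ1⟩ : L.Kf)⁻¹ = 1 :=
      hsm _ (inv_mem (KN_anti (dvd_mul_left _ _) hκ))
    rw [h3] at h
    exact h
  -- representatives
  choose y hy hydet using h2 n F v.1 j (by omega) hj
  have hsame : ∀ e : HC n v.1 (td n v.1 j), SameDet (inc n v.1 (y e)) (sft n v.1 ^ j) := by
    intro e w
    have e1 : (sft n v.1 ^ j).1 w = ((sft n v.1).1 w) ^ j := rfl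
    rw [e1]
    by_cases hw : w = v.1
    · subst hw
      have e2 : (sft n v.1).1 v.1 = td n v.1 1 := inc_same _ _
      rw [inc_same, e2, hydet e, Units.val_pow_eq_pow_val, Matrix.det_pow,
        det_td_one n v.1 (by omega)]
    · have e2 : (sft n v.1).1 w = 1 := inc_ne hw _
      rw [inc_ne hw, e2, one_pow]
  have hW : ∀ a : W, (p ^ r) • a = 0 := hr
  choose f hf hdf using fun e : HC n v.1 (td n v.1 j) => h1 W (p ^ r) (pow_ne_zero _ hp) hW
    (fun γ => (c γ).1) hc (N1 * N2) (mul_ne_zero hN1 hN2) hinv (inc n v.1 (y e)) (sft n v.1 ^ j)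
    (hsame e)
  have : Fintype (HC n v.1 (td n v.1 j)) := Fintype.ofFinite _
  refine ⟨fun g => ∑ e, f e g, ?_, ?_⟩
  · intro g
    choose M hM hMf using fun e => hf e g
    refine ⟨∏ e, M e, Finset.prod_ne_zero_iff.2 fun e _ => hM e, ?_⟩
    intro κ hκ
    apply Finset.sum_congr rfl
    intro e _
    exact hMf e κ (KN_anti (Finset.dvd_prod_of_mem M (Finset.mem_univ e)) hκ)
  · intro γ x
    have e1 : (opF C (FreeAlgebra.ι O ⟨v, td n v.1 j⟩) (c γ)).1 x =
        ∑ e : HC n v.1 (td n v.1 j), (c γ).1 (x * inc n v.1 (y e)) := by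
      unfold opF
      rw [FreeAlgebra.lift_ι_apply]
      show hecke v.1 (td n v.1 j) (c γ).1 x = _
      unfold hecke
      rw [finsum_eq_sum_of_fintype]
      apply Finset.sum_congr rfl
      intro e _
      apply (Fn_RU C v.2 (c γ)).coset
      rw [QuotientGroup.out_eq', hy e]
    rw [e1]
    have e2 : (deg n v.1 j : ℤ) • (c γ).1 (x * sft n v.1 ^ j) =
        ∑ _e : HC n v.1 (td n v.1 j), (c γ).1 (x * sft n v.1 ^ j) := by
      rw [Finset.sum_const, Finset.card_univ, natCast_zsmul, deg, Nat.card_eq_fintype_card]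
    rw [e2, ← Finset.sum_sub_distrib]
    show _ = (∑ e, f e ((dg n γ)⁻¹ * x)) - ∑ e, f e x
    rw [← Finset.sum_sub_distrib]
    apply Finset.sum_congr rfl
    intro e _
    exact hdf e γ x


section
variable {n : ℕ} {F : Type} [Field F] [NumberField F]
variable {Sg : Finset (Pl F)} {L : Level n Sg} {p : ℕ} {O : Type} [CommRing O] {W : Type}
  [AddCommGroup W] [Module O W]

lemma sl_inv2 (h1 : S_IDT) (h3 : S_PR2) (C : Coef L p O W) {f : AG n F → W}
    (hf : LC f) {c : GQ n F → C.Fn}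
    (hc : ∀ γ x, (c γ).1 x = dF f γ x) {v : Pl F} (hv : v ∉ Sg)
    (hpv : vv v ((p : ℕ) : Kv v) = 1) (g : AG n F) {u : LG n v}
    (hu : u ∈ U n v) (hd : u.1.det = 1) : f (g * inc n v u) = f g := by
  have hP : ∀ (u : LG n v) (hu : u ∈ U n v) (g : AG n F),
      Phi C f ⟨inc n v u, L.full v hv u hu⟩ g = f (g * inc n v u) - f g := by
    intro u hu g
    unfold Phi
    rw [C.unr v hv u hu]
    rfl
  obtain ⟨r, hr⟩ := C.tors
  have h := h3 n F v W (p ^ r) (by rw [Nat.cast_pow, map_pow, hpv, one_pow]) hr (fun u => f (g * inc n v u) - f g) (by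
    intro u hu u' hu' hd hd'
    show f (g * inc n v (u * u')) - f g = (f (g * inc n v u) - f g) + (f (g * inc n v u') - f g)
    have e1 : SameDet (g * inc n v u) g := by
      intro w
      rw [mul_apply', Units.val_mul, det_mul]
      by_cases hw : w = v
      · subst hw
        rw [inc_same, hd, mul_one]
      · rw [inc_ne hw, Units.val_one, det_one, mul_one]
    have e2 := Phi_det h1 C hf hc ⟨inc n v u', L.full v hv u' hu'⟩ e1
    rw [hP u' hu', hP u' hu'] at e2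
    rw [map_mul, ← mul_assoc, ← e2]
    abel) u hu hd
  exact sub_eq_zero.1 h

end

theorem tjkb (h1 : S_IDT) (h2 : S_RPC) (h3 : S_PR2) : ∀ (n : ℕ) (F : Type) [Field F]
    [NumberField F] (Sg : Finset (Pl F)) (L : Level n Sg) (p : ℕ) (O : Type) [CommRing O]
    (W : Type) [AddCommGroup W] [Module O W] (C : Coef L p O W) (v : {v : Pl F // v ∉ Sg})
    (j : ℕ), 1 ≤ n → vv v.1 ((p : ℕ) : Kv v.1) = 1 → j ≤ n → ∀ f : AG n F → W, LC f → ∀ c : GQ n F → C.Fn,
    (∀ γ x, (c γ).1 x = dF f γ x) →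
    ∃ f' : AG n F → W, LC f' ∧
      (∀ γ x, (opF C (FreeAlgebra.ι O ⟨v, td n v.1 j⟩) (c γ)).1 x = dF f' γ x) ∧
      ∀ (κ : L.Kf) (g : AG n F), C.act κ (f' (g * κ.1)) - f' g =
        (deg n v.1 j : ℤ) • (C.act κ (f (g * sft n v.1 ^ j * κ.1)) - f (g * sft n v.1 ^ j)) := by
  intro n F _ _ Sg L p O _ W _ _ C v j hn hpv hj f hf c hc
  classical
  have : Fintype (HC n v.1 (td n v.1 j)) := Fintype.ofFinite _
  choose y hy hy2 using h2 n F v.1 j (by omega) hj
  refine ⟨fun g => ∑ c : HC n v.1 (td n v.1 j), f (g * inc n v.1 (y c)),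
    LC_sum fun c => LC_right hf _, ?_, ?_⟩
  · intro γ x
    rw [opF_iota]
    show hecke v.1 (td n v.1 j) (c γ).1 x = _
    unfold hecke
    rw [finsum_eq_sum_of_fintype]
    unfold dF
    rw [← Finset.sum_sub_distrib]
    refine Finset.sum_congr rfl fun d _ => ?_
    have e1 : ((d.1.out : LG n v.1) : LG n v.1 ⧸ U n v.1) = (y d : LG n v.1 ⧸ U n v.1) := by
      rw [QuotientGroup.out_eq', hy]
    rw [(Fn_RU C v.2 (c γ)).coset x e1, hc, mul_assoc]
    rfl
  · intro κ g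
    have hκ : κ.1.1 v.1 ∈ U n v.1 := L.le κ.1 κ.2 v.1
    have main : ∀ d : HC n v.1 (td n v.1 j), C.act κ (f (g * κ.1 * inc n v.1 (y d))) =
        Phi C f κ (g * sft n v.1 ^ j) +
          f (g * inc n v.1 (y (shift (td n v.1 j) ⟨κ.1.1 v.1, hκ⟩ d))) := by
      intro d
      set d' := shift (td n v.1 j) ⟨κ.1.1 v.1, hκ⟩ d with hd'
      set u : LG n v.1 := (y d')⁻¹ * (κ.1.1 v.1 * y d) with hu
      have huU : u ∈ U n v.1 := by
        rw [hu, ← QuotientGroup.eq, hy d', hd']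
        show κ.1.1 v.1 • d.1 = _
        rw [← hy d]
        rfl
      have hdet : u.1.det = (κ.1.1 v.1).1.det := by
        have e : (y d').1.det * u.1.det = (κ.1.1 v.1).1.det * (y d).1.det := by
          rw [← det_mul, ← det_mul, ← Units.val_mul, ← Units.val_mul, hu, mul_inv_cancel_left]
        rw [hy2 d', hy2 d, mul_comm] at e
        exact mul_right_cancel₀ (pow_ne_zero _ (unif_ne v.1)) e
      have hν : (κ.1.1 v.1)⁻¹ * u ∈ U n v.1 := mul_mem (inv_mem hκ) huU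
      have hνd : ((κ.1.1 v.1)⁻¹ * u).1.det = 1 := by
        have e : (κ.1.1 v.1).1.det * ((κ.1.1 v.1)⁻¹ * u).1.det = (κ.1.1 v.1).1.det * 1 := by
          rw [← det_mul, ← Units.val_mul, mul_inv_cancel_left, hdet, mul_one]
        exact mul_left_cancel₀ (det_unit_ne _) e
      have e1 : g * κ.1 * inc n v.1 (y d) =
          g * inc n v.1 (y d') * κ.1 * inc n v.1 ((κ.1.1 v.1)⁻¹ * u) := by
        conv_lhs => rw [← offl_mul v.1 κ.1]
        have e2 : g * (offl v.1 κ.1 * inc n v.1 (κ.1.1 v.1)) * inc n v.1 (y d) =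
            g * (offl v.1 κ.1 * inc n v.1 (κ.1.1 v.1 * y d)) := by
          rw [map_mul]; simp only [mul_assoc]
        have e3 : κ.1.1 v.1 * y d = y d' * u := by rw [hu, mul_inv_cancel_left]
        rw [e2, e3, offl_comm, map_mul]
        have e4 : inc n v.1 (y d') * inc n v.1 u * offl v.1 κ.1 =
            inc n v.1 (y d') * (κ.1 * inc n v.1 ((κ.1.1 v.1)⁻¹ * u)) := by
          rw [mul_assoc, ← offl_comm]
          congr 1
          conv_rhs => rw [← offl_mul v.1 κ.1]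
          rw [mul_assoc, ← map_mul]
          congr 2
          rw [offl_mul, mul_inv_cancel_left]
        rw [e4]
        simp only [mul_assoc]
      rw [e1, sl_inv2 h1 h3 C hf hc v.2 hpv _ hν hνd]
      have e5 : Phi C f κ (g * inc n v.1 (y d')) = Phi C f κ (g * sft n v.1 ^ j) :=
        Phi_det h1 C hf hc κ (sameDet_inc v.1 j g (by omega) (hy2 d'))
      rw [← e5]
      unfold Phi
      abel
    show C.act κ (∑ d : HC n v.1 (td n v.1 j), f (g * κ.1 * inc n v.1 (y d))) -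
      (∑ d : HC n v.1 (td n v.1 j), f (g * inc n v.1 (y d))) = _
    rw [map_sum, Finset.sum_congr rfl fun d _ => main d, Finset.sum_add_distrib, Finset.sum_const,
      Finset.card_univ]
    rw [Equiv.sum_comp (shift (td n v.1 j) ⟨κ.1.1 v.1, hκ⟩)
      (fun d => f (g * inc n v.1 (y d))), add_sub_cancel_right, natCast_zsmul]
    unfold deg
    rw [Nat.card_eq_fintype_card]
    rfl


end TJ2m

open TJ2m in
theorem tj2 (h : S_PR2) : S_TJ2 := by
  intro n F _ _ Sg L p O _ W _ _ C v j hst hn hp hpv hj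
  have h1 : S_IDT := idt (sa apx)
  have h2 : S_RPC := rpc
  exact ⟨tj0b h1 h2 n F Sg L p O W C v j hn hp hj,
    tjzb h2 n F Sg L p O W C v j hst hn hp hj,
    tjkb h1 h2 h n F Sg L p O W C v j hn hpv hj⟩

end Pool.Agent.L0h47.NF
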