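import Pool.Agent.L0h47.NF.Stm2

/-!
# TOR: a fixed power of every unit acts trivially on the germs of homomorphisms
-/

set_option autoImplicit false
set_option linter.all false

namespace Pool.Agent.L0h47.NF

open Matrix NumberField IsDedekindDomain
open scoped WithZero
open Pool.Agent.L0h47.CG (tvr)

namespace TOR

variable {F : Type} [Field F] [NumberField F]

/-! ### congruence subgroups -/

/-- congruence of the entries -/
def Gm (N : ℕ) (γ : GQ 2 F) : Prop :=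
  ∀ i j, ∃ z : 𝓞 F, γ.1.1 i j - (1 : Matrix (Fin 2) (Fin 2) F) i j = (N : F) * (algebraMap (𝓞 F) F z)

lemma mem_Gm {N : ℕ} (hN : N ≠ 0) {γ : GQ 2 F} (h : dg 2 γ ∈ KN 2 F N) : Gm N γ := by
  intro i j
  have hNF : (N : F) ≠ 0 := by exact_mod_cast hN
  have h1 : ∀ v : Pl F, v.valuation F
      ((γ.1.1 i j - (1 : Matrix (Fin 2) (Fin 2) F) i j) / (N : F)) ≤ 1 := by
    intro v
    have h2 := (h v).2 i j
    have e1 : ((dg 2 γ).1 v).1 i j - (1 : Matrix (Fin 2) (Fin 2) (Kv v)) i j =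
        cst v (γ.1.1 i j - (1 : Matrix (Fin 2) (Fin 2) F) i j) := by
      rw [map_sub]
      congr 1
      rw [Matrix.one_apply, Matrix.one_apply]
      split_ifs <;> simp
    rw [Matrix.sub_apply, e1] at h2
    have e2 : ((N : ℕ) : Kv v) = cst v (N : F) := by simp
    rw [e2, vv_cst, vv_cst] at h2
    rw [map_div₀]
    refine div_le_one_of_le₀ h2 ?_
    exact zero_le
  obtain ⟨z, hz⟩ := HeightOneSpectrum.mem_integers_of_valuation_le_one (R := 𝓞 F) F _ h1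
  refine ⟨z, ?_⟩
  have : (algebraMap (𝓞 F) F z) = (γ.1.1 i j - (1 : Matrix (Fin 2) (Fin 2) F) i j) / (N : F) := hz
  rw [this]
  field_simp

lemma of_Gm {N : ℕ} {γ : GQ 2 F} (h1 : Gm N γ) (h2 : Gm N γ⁻¹) : dg 2 γ ∈ KN 2 F N := by
  intro v
  have key : ∀ δ : GQ 2 F, Gm N δ → Bd (((dg 2 δ).1 v).1 - 1) (vv v ((N : ℕ) : Kv v)) := by
    intro δ hδ i j
    obtain ⟨z, hz⟩ := hδ i j
    have e1 : ((dg 2 δ).1 v).1 i j - (1 : Matrix (Fin 2) (Fin 2) (Kv v)) i j =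
        cst v (δ.1.1 i j - (1 : Matrix (Fin 2) (Fin 2) F) i j) := by
      rw [map_sub]
      congr 1
      rw [Matrix.one_apply, Matrix.one_apply]
      split_ifs <;> simp
    rw [Matrix.sub_apply, e1, hz, map_mul, map_mul, map_natCast]
    exact mul_le_of_le_one_right' (vv_int v z)
  refine Cg_of (key γ h1) ?_
  have h3 := key γ⁻¹ h2
  rw [map_inv] at h3
  exact h3

/-! ### elementary matrices -/

lemma h01 : (0 : Fin 2) ≠ 1 := by decide
lemma h10 : (1 : Fin 2) ≠ 0 := by decide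

/-- upper elementary matrices -/
noncomputable def E12 (x : F) : GQ 2 F := sQ (tvr 0 1 h01 x)
/-- lower elementary matrices -/
noncomputable def E21 (x : F) : GQ 2 F := sQ (tvr 1 0 h10 x)

lemma val_E12 (x : F) : (E12 x).1.1 = !![1, x; 0, 1] := by
  change (transvection 0 1 x : Matrix (Fin 2) (Fin 2) F) = _
  ext i j
  fin_cases i <;> fin_cases j <;> simp [transvection, Matrix.single]

lemma val_E21 (x : F) : (E21 x).1.1 = !![1, 0; x, 1] := by
  change (transvection 1 0 x : Matrix (Fin 2) (Fin 2) F) = _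
  ext i j
  fin_cases i <;> fin_cases j <;> simp [transvection, Matrix.single]

lemma gext {γ δ : GQ 2 F} (h : γ.1.1 = δ.1.1) : γ = δ := Subtype.ext (Units.ext h)

lemma val_mul (γ δ : GQ 2 F) : (γ * δ).1.1 = γ.1.1 * δ.1.1 := rfl

lemma E12_add (x y : F) : E12 (x + y) = E12 x * E12 y := by
  apply gext
  rw [val_mul, val_E12, val_E12, val_E12, Matrix.mul_fin_two]
  simp [add_comm]

lemma E21_add (x y : F) : E21 (x + y) = E21 x * E21 y := by
  apply gext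
  rw [val_mul, val_E21, val_E21, val_E21, Matrix.mul_fin_two]
  simp

lemma E12_zero : E12 (0 : F) = 1 := by
  apply gext
  rw [val_E12]
  ext i j
  fin_cases i <;> fin_cases j <;> simp

lemma E21_zero : E21 (0 : F) = 1 := by
  apply gext
  rw [val_E21]
  ext i j
  fin_cases i <;> fin_cases j <;> simp

lemma E12_inv (x : F) : (E12 x)⁻¹ = E12 (-x) := by
  rw [inv_eq_iff_mul_eq_one, ← E12_add, add_neg_cancel, E12_zero]

lemma E21_inv (x : F) : (E21 x)⁻¹ = E21 (-x) := by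
  rw [inv_eq_iff_mul_eq_one, ← E21_add, add_neg_cancel, E21_zero]

lemma Gm_E12 (N : ℕ) (t : 𝓞 F) : Gm N (E12 ((N : F) * (algebraMap (𝓞 F) F t))) := by
  intro i j
  rw [val_E12]
  fin_cases i <;> fin_cases j
  · exact ⟨0, by simp⟩
  · exact ⟨t, by simp⟩
  · exact ⟨0, by simp⟩
  · exact ⟨0, by simp⟩

lemma Gm_E21 (N : ℕ) (t : 𝓞 F) : Gm N (E21 ((N : F) * (algebraMap (𝓞 F) F t))) := by
  intro i j
  rw [val_E21]
  fin_cases i <;> fin_cases j
  · exact ⟨0, by simp⟩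
  · exact ⟨0, by simp⟩
  · exact ⟨t, by simp⟩
  · exact ⟨0, by simp⟩

lemma mem_E12 (N : ℕ) (t : 𝓞 F) : dg 2 (E12 ((N : F) * (algebraMap (𝓞 F) F t))) ∈ KN 2 F N := by
  refine of_Gm (Gm_E12 N t) ?_
  rw [E12_inv]
  have : -((N : F) * (algebraMap (𝓞 F) F t)) = (N : F) * (algebraMap (𝓞 F) F (-t)) := by
    push_cast
    ring
  rw [this]
  exact Gm_E12 N _

lemma mem_E21 (N : ℕ) (t : 𝓞 F) : dg 2 (E21 ((N : F) * (algebraMap (𝓞 F) F t))) ∈ KN 2 F N := by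
  refine of_Gm (Gm_E21 N t) ?_
  rw [E21_inv]
  have : -((N : F) * (algebraMap (𝓞 F) F t)) = (N : F) * (algebraMap (𝓞 F) F (-t)) := by
    push_cast
    ring
  rw [this]
  exact Gm_E21 N _

/-! ### conjugation by units -/

/-- the unit as an element of `F` -/
noncomputable def uc (u : (𝓞 F)ˣ) : F := (algebraMap (𝓞 F) F (u : 𝓞 F))

lemma uc_mul (u u' : (𝓞 F)ˣ) : uc (u * u') = uc u * uc u' := by
  unfold uc
  rw [Units.val_mul]
  push_cast
  rfl

lemma uc_one : uc (1 : (𝓞 F)ˣ) = 1 := by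
  unfold uc
  simp

lemma uc_inv (u : (𝓞 F)ˣ) : uc u * uc u⁻¹ = 1 := by
  rw [← uc_mul, mul_inv_cancel, uc_one]

lemma val_cj (u : (𝓞 F)ˣ) (γ : GQ 2 F) : (cj (dU u) γ).1.1 =
    !![uc u, 0; 0, 1] * γ.1.1 * !![uc u⁻¹, 0; 0, 1] := rfl

lemma cj_mul (g : GL (Fin 2) F) (γ δ : GQ 2 F) : cj g (γ * δ) = cj g γ * cj g δ := by
  apply Subtype.ext
  change g * (γ.1 * δ.1) * g⁻¹ = (g * γ.1 * g⁻¹) * (g * δ.1 * g⁻¹)
  group

lemma cj_inv (g : GL (Fin 2) F) (γ : GQ 2 F) : (cj g γ)⁻¹ = cj g γ⁻¹ := by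
  apply Subtype.ext
  change (g * γ.1 * g⁻¹)⁻¹ = g * γ.1⁻¹ * g⁻¹
  group

lemma cj_eq (u : (𝓞 F)ˣ) (γ : GQ 2 F) : (cj (dU u) γ).1.1 =
    !![γ.1.1 0 0, uc u * γ.1.1 0 1; uc u⁻¹ * γ.1.1 1 0, γ.1.1 1 1] := by
  rw [val_cj]
  have h := uc_inv u
  conv_lhs => rw [Matrix.eta_fin_two γ.1.1]
  rw [Matrix.mul_fin_two, Matrix.mul_fin_two]
  ext i j
  fin_cases i <;> fin_cases j <;> simp
  · rw [mul_assoc, mul_comm (γ.1.1 0 0), ← mul_assoc, h, one_mul]
  · rw [mul_comm]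

lemma cj_cj (u u' : (𝓞 F)ˣ) (γ : GQ 2 F) : cj (dU (u * u')) γ = cj (dU u) (cj (dU u') γ) := by
  apply gext
  rw [cj_eq, cj_eq, cj_eq, mul_inv, uc_mul, uc_mul]
  ext i j
  fin_cases i <;> fin_cases j <;> simp [mul_assoc]

lemma cj_one (γ : GQ 2 F) : cj (dU 1) γ = γ := by
  apply gext
  rw [cj_eq, inv_one, uc_one, one_mul, one_mul, ← Matrix.eta_fin_two]

lemma cj_E12 (u : (𝓞 F)ˣ) (x : F) : cj (dU u) (E12 x) = E12 (uc u * x) := by
  apply gext
  rw [cj_eq, val_E12, val_E12]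
  ext i j
  fin_cases i <;> fin_cases j <;> simp

lemma cj_E21 (u : (𝓞 F)ˣ) (x : F) : cj (dU u) (E21 x) = E21 (uc u⁻¹ * x) := by
  apply gext
  rw [cj_eq, val_E21, val_E21]
  ext i j
  fin_cases i <;> fin_cases j <;> simp

lemma Gm_cj {N : ℕ} {γ : GQ 2 F} (h : Gm N γ) (u : (𝓞 F)ˣ) : Gm N (cj (dU u) γ) := by
  intro i j
  rw [cj_eq]
  obtain ⟨z, hz⟩ := h i j
  fin_cases i <;> fin_cases j
  · exact ⟨z, by simpa using hz⟩
  · have hz' : γ.1.1 0 1 = (N : F) * (algebraMap (𝓞 F) F z) := by simpa using hz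
    refine ⟨(u : 𝓞 F) * z, ?_⟩
    change uc u * γ.1.1 0 1 - (1 : Matrix (Fin 2) (Fin 2) F) 0 1 = _
    rw [Matrix.one_apply_ne h01, sub_zero, hz', map_mul (algebraMap (𝓞 F) F)]
    unfold uc
    ring
  · have hz' : γ.1.1 1 0 = (N : F) * (algebraMap (𝓞 F) F z) := by simpa using hz
    refine ⟨((u⁻¹ : (𝓞 F)ˣ) : 𝓞 F) * z, ?_⟩
    change uc u⁻¹ * γ.1.1 1 0 - (1 : Matrix (Fin 2) (Fin 2) F) 1 0 = _
    rw [Matrix.one_apply_ne h10, sub_zero, hz', map_mul]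
    unfold uc
    ring
  · exact ⟨z, by simpa using hz⟩

lemma mem_cj {N : ℕ} (hN : N ≠ 0) {γ : GQ 2 F} (h : dg 2 γ ∈ KN 2 F N) (u : (𝓞 F)ˣ) :
    dg 2 (cj (dU u) γ) ∈ KN 2 F N := by
  refine of_Gm (Gm_cj (mem_Gm hN h) u) ?_
  rw [cj_inv]
  refine Gm_cj (mem_Gm hN ?_) u
  rw [map_inv]
  exact inv_mem h

/-- the key identity -/
lemma key_id (u : (𝓞 F)ˣ) (γ : GQ 2 F) (z : F) (hz : uc u - 1 = γ.1.1 0 0 * z) :
    cj (dU u) γ = E21 (-(uc u⁻¹ * z * γ.1.1 1 0)) * γ * E12 (z * γ.1.1 0 1) := by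
  apply gext
  rw [cj_eq, val_mul, val_mul, val_E21, val_E12]
  have h := uc_inv u
  set a := γ.1.1 0 0 with ha
  set b := γ.1.1 0 1 with hb
  set c := γ.1.1 1 0 with hc
  set d := γ.1.1 1 1 with hd
  have e : γ.1.1 = !![a, b; c, d] := Matrix.eta_fin_two _
  rw [e, Matrix.mul_fin_two, Matrix.mul_fin_two]
  have hu : uc u = 1 + a * z := by
    rw [← hz]
    ring
  ext i j
  fin_cases i <;> fin_cases j <;> simp
  · rw [hu]
    ring
  · have : uc u⁻¹ * (1 + a * z) = 1 := by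
      rw [← hu, mul_comm]
      exact h
    linear_combination c * this
  · have : uc u⁻¹ * (1 + a * z) = 1 := by
      rw [← hu, mul_comm]
      exact h
    linear_combination (b * c * z) * this

/-- the values on elementary matrices -/
lemma phi_E12 {A : Type} [AddCommGroup A] {w : ℕ} (hA : ∀ a : A, w • a = 0) {N : ℕ}
    {φ : GQ 2 F → A} (hφ : AddOn N φ) (t : 𝓞 F) : φ (E12 (((N * w : ℕ) : F) * (algebraMap (𝓞 F) F t))) = 0 := by
  let f : 𝓞 F →+ A := AddMonoidHom.mk' (fun t => φ (E12 ((N : F) * (algebraMap (𝓞 F) F t)))) (by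
    intro a b
    have e : (N : F) * (algebraMap (𝓞 F) F (a + b)) = (N : F) * (algebraMap (𝓞 F) F a) + (N : F) * (algebraMap (𝓞 F) F b) := by
      rw [map_add, mul_add]
    rw [e, E12_add]
    exact hφ _ _ (mem_E12 N a) (mem_E12 N b))
  have h1 : f (w • t) = 0 := by
    rw [map_nsmul]
    exact hA _
  have h2 : f (w • t) = φ (E12 (((N * w : ℕ) : F) * (algebraMap (𝓞 F) F t))) := by
    change φ (E12 ((N : F) * (algebraMap (𝓞 F) F (w • t)))) = _
    congr 2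
    rw [nsmul_eq_mul, map_mul, map_natCast]
    push_cast
    ring
  rw [← h2, h1]

lemma phi_E21 {A : Type} [AddCommGroup A] {w : ℕ} (hA : ∀ a : A, w • a = 0) {N : ℕ}
    {φ : GQ 2 F → A} (hφ : AddOn N φ) (t : 𝓞 F) : φ (E21 (((N * w : ℕ) : F) * (algebraMap (𝓞 F) F t))) = 0 := by
  let f : 𝓞 F →+ A := AddMonoidHom.mk' (fun t => φ (E21 ((N : F) * (algebraMap (𝓞 F) F t)))) (by
    intro a b
    have e : (N : F) * (algebraMap (𝓞 F) F (a + b)) = (N : F) * (algebraMap (𝓞 F) F a) + (N : F) * (algebraMap (𝓞 F) F b) := by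
      rw [map_add, mul_add]
    rw [e, E21_add]
    exact hφ _ _ (mem_E21 N a) (mem_E21 N b))
  have h1 : f (w • t) = 0 := by
    rw [map_nsmul]
    exact hA _
  have h2 : f (w • t) = φ (E21 (((N * w : ℕ) : F) * (algebraMap (𝓞 F) F t))) := by
    change φ (E21 ((N : F) * (algebraMap (𝓞 F) F (w • t)))) = _
    congr 2
    rw [nsmul_eq_mul, map_mul, map_natCast]
    push_cast
    ring
  rw [← h2, h1]

/-- the stabiliser -/
def stb {A : Type} (φ : GQ 2 F → A) (γ : GQ 2 F) : Subgroup (𝓞 F)ˣ where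
  carrier := {u | ∀ u', φ (cj (dU (u' * u)) γ) = φ (cj (dU u') γ)}
  one_mem' := by
    intro u'
    rw [mul_one]
  mul_mem' := by
    intro a b ha hb u'
    rw [← mul_assoc, hb, ha]
  inv_mem' := by
    intro a ha u'
    have := ha (u' * a⁻¹)
    rw [inv_mul_cancel_right] at this
    exact this.symm

end TOR

open TOR in
theorem tor (h : S_ROW) : S_TOR := by
  intro F _ _
  obtain ⟨K, m, hK, hm, hrow⟩ := h F
  refine ⟨m, hm, fun A _ w hw hA N hN φ hφ => ?_⟩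
  obtain ⟨M0, hM0e⟩ : ∃ M0 : ℕ, M0 = N * w * K := ⟨_, rfl⟩
  have hM0 : M0 ≠ 0 := by
    rw [hM0e]
    exact mul_ne_zero (mul_ne_zero hN hw) hK
  have hKM : K ∣ M0 := ⟨N * w, by rw [hM0e]; ring⟩
  have hNM : N ∣ M0 := ⟨w * K, by rw [hM0e]; ring⟩
  have hM2 : M0 ^ 2 ≠ 0 := pow_ne_zero 2 hM0
  have hNM2 : N ∣ M0 ^ 2 := dvd_pow hNM two_ne_zero
  have hMM2 : M0 ∣ M0 ^ 2 := dvd_pow_self M0 two_ne_zero
  refine ⟨M0 ^ 2, hM2, fun γ hγ u => ?_⟩
  have z12 : ∀ t : 𝓞 F, φ (E12 ((M0 : F) * (algebraMap (𝓞 F) F t))) = 0 := by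
    intro t
    have h1 := phi_E12 hA hφ ((K : 𝓞 F) * t)
    rw [← h1]
    congr 2
    rw [hM0e, map_mul, map_natCast]
    push_cast
    ring
  have z21 : ∀ t : 𝓞 F, φ (E21 ((M0 : F) * (algebraMap (𝓞 F) F t))) = 0 := by
    intro t
    have h1 := phi_E21 hA hφ ((K : 𝓞 F) * t)
    rw [← h1]
    congr 2
    rw [hM0e, map_mul, map_natCast]
    push_cast
    ring
  have m12 : ∀ t : 𝓞 F, dg 2 (E12 ((M0 : F) * (algebraMap (𝓞 F) F t))) ∈ KN 2 F N :=
    fun t => KN_anti hNM (mem_E12 M0 t)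
  have m21 : ∀ t : 𝓞 F, dg 2 (E21 ((M0 : F) * (algebraMap (𝓞 F) F t))) ∈ KN 2 F N :=
    fun t => KN_anti hNM (mem_E21 M0 t)
  have c12 : ∀ (v : (𝓞 F)ˣ) (t : 𝓞 F), cj (dU v) (E12 ((M0 : F) * (algebraMap (𝓞 F) F t))) =
      E12 ((M0 : F) * (algebraMap (𝓞 F) F ((v : 𝓞 F) * t))) := by
    intro v t
    rw [cj_E12, map_mul]
    congr 1
    unfold uc
    ring
  have c21 : ∀ (v : (𝓞 F)ˣ) (t : 𝓞 F), cj (dU v) (E21 ((M0 : F) * (algebraMap (𝓞 F) F t))) =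
      E21 ((M0 : F) * (algebraMap (𝓞 F) F (((v⁻¹ : (𝓞 F)ˣ) : 𝓞 F) * t))) := by
    intro v t
    rw [cj_E21, map_mul]
    congr 1
    unfold uc
    ring
  have hγN : dg 2 γ ∈ KN 2 F N := KN_anti hNM2 hγ
  have hint := mem_Gm hM2 hγ
  have hint' := mem_Gm hM2 (γ := γ⁻¹) (by rw [map_inv]; exact inv_mem hγ)
  obtain ⟨z00, hz00⟩ := hint 0 0
  obtain ⟨z01, hz01⟩ := hint 0 1
  obtain ⟨z10, hz10⟩ := hint 1 0
  obtain ⟨z11, hz11⟩ := hint 1 1
  obtain ⟨y00, hy00⟩ := hint' 0 0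
  obtain ⟨y10, hy10⟩ := hint' 1 0
  have hinj : Function.Injective (algebraMap (𝓞 F) F) := IsFractionRing.injective (𝓞 F) F
  rw [Matrix.one_apply_eq] at hz00 hz11 hy00
  rw [Matrix.one_apply_ne h01, sub_zero] at hz01
  rw [Matrix.one_apply_ne h10, sub_zero] at hz10 hy10
  set a : 𝓞 F := 1 + ((M0 : ℕ) : 𝓞 F) ^ 2 * z00 with ha
  set b : 𝓞 F := ((M0 : ℕ) : 𝓞 F) ^ 2 * z01 with hb
  set c : 𝓞 F := ((M0 : ℕ) : 𝓞 F) ^ 2 * z10 with hc
  set d : 𝓞 F := 1 + ((M0 : ℕ) : 𝓞 F) ^ 2 * z11 with hd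
  have e00 : γ.1.1 0 0 = (algebraMap (𝓞 F) F a) := by
    rw [ha, map_add, map_mul, map_pow, map_natCast, map_one]
    push_cast at hz00
    linear_combination hz00
  have e01 : γ.1.1 0 1 = (algebraMap (𝓞 F) F b) := by
    rw [hb, map_mul, map_pow, map_natCast]
    push_cast at hz01
    linear_combination hz01
  have e10 : γ.1.1 1 0 = (algebraMap (𝓞 F) F c) := by
    rw [hc, map_mul, map_pow, map_natCast]
    push_cast at hz10
    linear_combination hz10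
  have e11 : γ.1.1 1 1 = (algebraMap (𝓞 F) F d) := by
    rw [hd, map_add, map_mul, map_pow, map_natCast, map_one]
    push_cast at hz11
    linear_combination hz11
  have hcop : IsCoprime a b := by
    refine ⟨1 + ((M0 : ℕ) : 𝓞 F) ^ 2 * y00, ((M0 : ℕ) : 𝓞 F) ^ 2 * y10, ?_⟩
    apply hinj
    have h1 : (γ.1.1 * (γ⁻¹).1.1) 0 0 = 1 := by
      rw [← val_mul, mul_inv_cancel]
      rfl
    rw [Matrix.mul_apply, Fin.sum_univ_two, e00, e01] at h1
    rw [map_add, map_mul, map_mul, map_add, map_mul, map_mul, map_pow, map_natCast, map_one]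
    rw [Nat.cast_pow] at hy00 hy10
    linear_combination h1 - (algebraMap (𝓞 F) F a) * hy00 - (algebraMap (𝓞 F) F b) * hy10
  have hH : ∀ l : ℕ, l.Prime → ∃ o : ℕ, o ≠ 0 ∧ (∀ j : ℕ, l ^ j ∣ o → l ^ j ∣ m) ∧
      ∀ v : (𝓞 F)ˣ, v ^ o ∈ stb φ γ := by
    intro l hl
    obtain ⟨s, t, o, ho, hoj, hou⟩ := hrow M0 hM0 hKM l hl a b hcop
      ⟨z00, by rw [ha]; ring⟩ ⟨z01, by rw [hb]⟩
    refine ⟨o, ho, hoj, fun v => ?_⟩
    obtain ⟨z, hz⟩ := hou v
    set g' : GQ 2 F := γ * E12 ((M0 : F) * (algebraMap (𝓞 F) F s)) * E21 ((M0 : F) * (algebraMap (𝓞 F) F t)) with hg'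
    have hval : g'.1.1 = !![(algebraMap (𝓞 F) F a) + (algebraMap (𝓞 F) F a * ((M0 : F) * algebraMap (𝓞 F) F s) + algebraMap (𝓞 F) F b) * ((M0 : F) * algebraMap (𝓞 F) F t),
        algebraMap (𝓞 F) F a * ((M0 : F) * algebraMap (𝓞 F) F s) + algebraMap (𝓞 F) F b; (algebraMap (𝓞 F) F c) + (algebraMap (𝓞 F) F c * ((M0 : F) * algebraMap (𝓞 F) F s) + algebraMap (𝓞 F) F d) * ((M0 : F) * algebraMap (𝓞 F) F t),
        algebraMap (𝓞 F) F c * ((M0 : F) * algebraMap (𝓞 F) F s) + algebraMap (𝓞 F) F d] := by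
      rw [hg', val_mul, val_mul, val_E12, val_E21, Matrix.eta_fin_two γ.1.1, e00, e01, e10, e11,
        Matrix.mul_fin_two, Matrix.mul_fin_two]
      simp only [mul_zero, mul_one, add_zero, zero_add]
    have hg'N : dg 2 g' ∈ KN 2 F N := by
      rw [hg', map_mul, map_mul]
      exact mul_mem (mul_mem hγN (m12 s)) (m21 t)
    have h1 : ∀ v : (𝓞 F)ˣ, φ (cj (dU v) g') = φ (cj (dU v) γ) := by
      intro v
      rw [hg', cj_mul, cj_mul, c12, c21, hφ _ _ _ (m21 _), hφ _ _ _ (m12 _), z12, z21, add_zero,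
        add_zero]
      · exact mem_cj hN hγN v
      · rw [map_mul]
        exact mul_mem (mem_cj hN hγN v) (m12 _)
    have hkey := key_id (v ^ o) g' (algebraMap (𝓞 F) F z) (by
      rw [hval]
      have h2 := congrArg (algebraMap (𝓞 F) F) hz
      rw [map_sub, map_one] at h2
      unfold uc
      rw [h2]
      simp only [map_mul, map_add, map_natCast, Matrix.of_apply, Matrix.cons_val', Matrix.cons_val_zero,
        Matrix.cons_val_fin_one]
      ring)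
    obtain ⟨x1, hx1⟩ : ∃ x1 : 𝓞 F, -(uc (v ^ o)⁻¹ * (algebraMap (𝓞 F) F z) * g'.1.1 1 0) = (M0 : F) * (algebraMap (𝓞 F) F x1) := by
      refine ⟨-((((v ^ o)⁻¹ : (𝓞 F)ˣ) : 𝓞 F) * z * ((((M0 : ℕ) : 𝓞 F)) * z10 +
        (d + c * ((((M0 : ℕ) : 𝓞 F)) * s)) * t)), ?_⟩
      rw [hval]
      simp only [map_mul, map_add, map_neg, map_natCast, Matrix.of_apply, Matrix.cons_val',
        Matrix.cons_val_zero, Matrix.cons_val_one, Matrix.cons_val_fin_one]
      have : (algebraMap (𝓞 F) F c) = (M0 : F) ^ 2 * (algebraMap (𝓞 F) F z10) := by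
        rw [hc, map_mul, map_pow, map_natCast]
      rw [this]
      unfold uc
      ring
    obtain ⟨x2, hx2⟩ : ∃ x2 : 𝓞 F, (algebraMap (𝓞 F) F z) * g'.1.1 0 1 = (M0 : F) * (algebraMap (𝓞 F) F x2) := by
      refine ⟨z * ((((M0 : ℕ) : 𝓞 F)) * z01 + a * s), ?_⟩
      rw [hval]
      simp only [map_mul, map_add, map_neg, map_natCast, Matrix.of_apply, Matrix.cons_val',
        Matrix.cons_val_zero, Matrix.cons_val_one, Matrix.cons_val_fin_one]
      have : (algebraMap (𝓞 F) F b) = (M0 : F) ^ 2 * (algebraMap (𝓞 F) F z01) := by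
        rw [hb, map_mul, map_pow, map_natCast]
      rw [this]
      ring
    rw [hx1, hx2] at hkey
    intro u'
    rw [← h1, ← h1, cj_cj, hkey, cj_mul, cj_mul, c12, c21, hφ _ _ _ (m12 _), hφ _ _ (m21 _) _,
      z12, z21, zero_add, add_zero]
    · exact mem_cj hN hg'N u'
    · rw [map_mul]
      exact mul_mem (m21 _) (mem_cj hN hg'N u')
  -- the order
  have hfin : ∀ l : ℕ, l.Prime → ∀ j : ℕ,
      l ^ j ∣ orderOf (QuotientGroup.mk (s := stb φ γ) u) → l ^ j ∣ m := by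
    intro l hl j hj
    obtain ⟨o, ho, hoj, hou⟩ := hH l hl
    apply hoj
    refine hj.trans (orderOf_dvd_of_pow_eq_one ?_)
    rw [← QuotientGroup.mk_pow, QuotientGroup.eq_one_iff]
    exact hou u
  have hdvd : orderOf (QuotientGroup.mk (s := stb φ γ) u) ∣ m :=
    (Nat.dvd_iff_prime_pow_dvd_dvd _ _).2 fun l j hl hj => hfin l hl j hj
  have hmem : u ^ m ∈ stb φ γ := by
    rw [← QuotientGroup.eq_one_iff, QuotientGroup.mk_pow]
    exact orderOf_dvd_iff_pow_eq_one.1 hdvd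
  have := hmem 1
  rw [one_mul, cj_one] at this
  exact this

end Pool.Agent.L0h47.NF
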