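import Pool.Agent.L0h47.NF.Stm2
import Pool.Agent.L0h47.NF.M.SMC
import Pool.Agent.L0h47.NF.M.LOW
import Pool.Agent.L0h47.NF.M.SAT
import Pool.Agent.L0h47.NF.M.EIG

/-!
# Project NF (helper47), V2 module EI2: the Satake polynomial at the places with `q ≡ 1`
-/

set_option autoImplicit false
set_option linter.all false

namespace Pool.Agent.L0h47.NF

open Matrix NumberField IsDedekindDomain
open scoped WithZero

namespace Ei2

variable {F : Type} [Field F] [NumberField F]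

/-- if `q_v = 1` modulo `p` then `p` is a unit at `v` -/
lemma vv_one (v : Pl F) {p : ℕ} (h : (p : ℤ) ∣ (qv v : ℤ) - 1) : vv v ((p : ℕ) : Kv v) = 1 := by
  refine le_antisymm (vv_nat_le v p) ?_
  by_contra hlt
  rw [not_le] at hlt
  have h1 : ((p : ℕ) : Kv v) = cst v (algebraMap (𝓞 F) F ((p : ℕ) : 𝓞 F)) := by
    rw [map_natCast, map_natCast]
  rw [h1, vv_cst, HeightOneSpectrum.valuation_lt_one_iff_mem] at hlt
  have h2 : ((qv v : ℕ) : 𝓞 F) ∈ v.asIdeal := Ideal.absNorm_mem _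
  obtain ⟨k, hk⟩ := h
  have h3 : ((qv v : ℕ) : 𝓞 F) - 1 = ((p : ℕ) : 𝓞 F) * ((k : ℤ) : 𝓞 F) := by
    have := congrArg (fun z : ℤ => (z : 𝓞 F)) hk
    push_cast at this
    exact this
  have h4 : (1 : 𝓞 F) ∈ v.asIdeal := by
    have h5 := v.asIdeal.sub_mem h2 (v.asIdeal.mul_mem_right ((k : ℤ) : 𝓞 F) hlt)
    rwa [← h3, sub_sub_cancel] at h5
  exact v.isPrime.ne_top (v.asIdeal.eq_top_of_isUnit_mem h4 isUnit_one)

end Ei2

theorem ei2 (h2 : S_TJ2) (h4 : S_DEG) : S_EI2 := by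
  have h1 := smc
  have h3 := low smc
  have h5 := sat
  intro n F _ _ Sg L p O _ W _ _ C hst hn hp k _ _ _ _ θ t i hi hne v hv
  have hv1 := Ei2.vv_one v.1 hv
  set τ : ℕ → k := fun j => θ (FreeAlgebra.ι O ⟨v, td n v.1 j⟩) with hτ
  obtain ⟨a, m, hm, hnm⟩ := Nat.exists_eq_pow_mul_and_not_dvd (show n ≠ 0 by omega) p hp.ne_one
  have hp0 : p ≠ 0 := hp.ne_zero
  have hT : ∀ j, j ≤ n → Sem C v.1 (FreeAlgebra.ι O ⟨v, td n v.1 j⟩) (deg n v.1 j) j :=
    fun j hj => h2 n F Sg L p O W C v j hst hn hp0 hv1 hj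
  obtain ⟨hmul, hcomb, hone⟩ := h1 n F Sg L p O W C v.1
  have hθ : ∀ P D e, (p : ℤ) ∣ D → Sem C v.1 P D e → θ P = 0 := fun P D e hD hP =>
    h3 n F Sg L p O W C v.1 P D e hD hP i hi k θ hne
  have hpow : ∀ (P : FreeAlgebra O (HI n Sg)) (D : ℤ) (e : ℕ), Sem C v.1 P D e →
      ∀ r : ℕ, Sem C v.1 (P ^ r) (D ^ r) (r * e) := by
    intro P D e hP r
    induction r with
    | zero => rw [pow_zero, pow_zero, zero_mul]; exact hone
    | succ r ih =>
      rw [pow_succ, pow_succ, Nat.succ_mul]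
      exact hmul _ _ _ _ _ _ ih hP
  have hdeg : ∀ j, j ≤ n → (deg n v.1 j : ℤ) ≡ (n.choose j : ℤ) [ZMOD p] := fun j hj =>
    Int.natCast_modEq_iff.2 (h4 n F v.1 p j hp hj hv)
  -- the first condition
  have c1 : ∀ j, j ≤ n → ¬ p ^ a ∣ j → τ j = 0 := by
    intro j hj hja
    refine hθ _ _ _ ?_ (hT j hj)
    have e1 := hdeg j hj
    rw [← Int.modEq_zero_iff_dvd]
    refine e1.trans ?_
    rw [Int.modEq_zero_iff_dvd]
    have := Eig.dvd_choose hp a m j hja
    rw [← hnm] at this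
    exact_mod_cast this
  -- the second condition
  have c2 : ∀ i, i ≤ m → (n.choose (p ^ a) : k) ^ i * τ (p ^ a * i) =
      (n.choose (p ^ a * i) : k) * τ (p ^ a) ^ i := by
    intro s hs
    have hm0 : 0 < m := by
      rcases Nat.eq_zero_or_pos m with h | h
      · rw [h] at hm; exact absurd (dvd_zero p) hm
      · exact h
    have hj1 : p ^ a ≤ n := by
      rw [hnm]; exact Nat.le_mul_of_pos_right _ hm0
    have hj2 : p ^ a * s ≤ n := by
      conv_rhs => rw [hnm]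
      exact Nat.mul_le_mul_left _ hs
    have q1 := hT (p ^ a * s) hj2
    have q2 := hpow _ _ _ (hT (p ^ a) hj1) s
    rw [mul_comm s] at q2
    have q3 := hcomb _ _ _ _ _ ((n.choose (p ^ a) : ℤ) ^ s) (-(n.choose (p ^ a * s) : ℤ)) q1 q2
    have q4 := hθ _ _ _ ?_ q3
    · rw [map_add, map_zsmul, map_zsmul, map_pow] at q4
      simp only [zsmul_eq_mul] at q4
      push_cast at q4
      have q5 : (n.choose (p ^ a) : k) ^ s * τ (p ^ a * s) +
          -(n.choose (p ^ a * s) : k) * τ (p ^ a) ^ s = 0 := q4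
      linear_combination q5
    · rw [← Int.modEq_zero_iff_dvd]
      have e1 := (hdeg (p ^ a * s) hj2).mul_left ((n.choose (p ^ a) : ℤ) ^ s)
      have e2 := ((hdeg (p ^ a) hj1).pow s).mul_left (-(n.choose (p ^ a * s) : ℤ))
      refine (e1.add e2).trans ?_
      rw [show (n.choose (p ^ a) : ℤ) ^ s * (n.choose (p ^ a * s) : ℤ) +
        -(n.choose (p ^ a * s) : ℤ) * (n.choose (p ^ a) : ℤ) ^ s = 0 by ring]
  obtain ⟨c, hc⟩ := h5 n p hp (by omega) k a m hnm hm τ c1 c2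
  refine ⟨c, ?_⟩
  rw [← hc]
  unfold satake
  have hq : ((qv v.1 : ℕ) : k) = 1 := by
    obtain ⟨d, hd⟩ := hv
    have : ((qv v.1 : ℕ) : k) - 1 = 0 := by
      have e := congrArg (fun z : ℤ => (z : k)) hd
      push_cast at e
      rw [e, CharP.cast_eq_zero, zero_mul]
    exact sub_eq_zero.1 this
  refine Finset.sum_congr rfl fun j _ => ?_
  rw [hq, _root_.one_zpow, mul_one]

end Pool.Agent.L0h47.NF
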